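import Pool.Agent.helper34.NTA.Spec

set_option autoImplicit false

/-!
# Row `nta:CON` (MP_4536c8_co): the graph is connected
-/

namespace Pool.Agent.NTA

open Equiv

/-- in one orbit -/
def CON_rel {D : Type} (σ τ : Perm D) (d d' : D) : Prop :=
  MulAction.orbitRel (Subgroup.closure ({σ, τ} : Set (Perm D))) D d d'

theorem CON_refl {D : Type} {σ τ : Perm D} (d : D) : CON_rel σ τ d d := (MulAction.orbitRel _ D).refl d

theorem CON_symm {D : Type} {σ τ : Perm D} {d d' : D} (h : CON_rel σ τ d d') : CON_rel σ τ d' d :=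
  (MulAction.orbitRel _ D).symm h

theorem CON_trans {D : Type} {σ τ : Perm D} {a b c : D} (h : CON_rel σ τ a b) (h' : CON_rel σ τ b c) :
    CON_rel σ τ a c := (MulAction.orbitRel _ D).trans h h'

theorem CON_s {D : Type} (σ τ : Perm D) (d : D) : CON_rel σ τ (σ d) d := by
  refine MulAction.mem_orbit_iff.2 ⟨⟨σ, Subgroup.subset_closure (by simp)⟩, rfl⟩

theorem CON_t {D : Type} (σ τ : Perm D) (d : D) : CON_rel σ τ (τ d) d := by
  refine MulAction.mem_orbit_iff.2 ⟨⟨τ, Subgroup.subset_closure (by simp)⟩, rfl⟩

theorem CON : CON_stmt := by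
  classical
  intro H _ _ s sg hG σ hR
  obtain ⟨f, hf⟩ : ∃ f : H → ZMod 10 → II H × Bool, ∀ h c, f h c = (Sum.inl (h, c), false) := ⟨_, fun _ _ => rfl⟩
  have ho : ∀ (i : II H) (b : Bool), oppI H (i, b) = (i, !b) := fun _ _ => rfl
  have hs : ∀ d, CON_rel σ (oppI H) (σ d) d := CON_s σ _
  have ht : ∀ d, CON_rel σ (oppI H) (oppI H d) d := CON_t σ _
  -- one vertex
  have h1 : ∀ h c, CON_rel σ (oppI H) (f h (c + 1)) (f h c) := by
    intro h c
    rw [hf, hf]
    by_cases hh : sg h = 1
    · have h2 := hs (Sum.inl (h, c), false)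
      rw [hR.big, if_pos hh] at h2
      exact h2
    · have h2 := hs (Sum.inl (h, c + 1), false)
      rw [hR.big, if_neg hh, add_sub_cancel_right] at h2
      exact CON_symm h2
  have h2 : ∀ h (n : ℕ), CON_rel σ (oppI H) (f h (n : ZMod 10)) (f h 0) := by
    intro h n
    induction n with
    | zero => rw [Nat.cast_zero]; exact CON_refl _
    | succ n ih => rw [Nat.cast_succ]; exact CON_trans (h1 h n) ih
  have h3 : ∀ h (c : ZMod 10), CON_rel σ (oppI H) (f h c) (f h 0) := by
    intro h c
    have := h2 h c.val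
    rwa [ZMod.natCast_zmod_val] at this
  -- the true darts of big vertices
  have h4 : ∀ h c, CON_rel σ (oppI H) (Sum.inl (h, c), true) (f h 0) := by
    intro h c
    have := ht (Sum.inl (h, c), false)
    rw [ho] at this
    refine CON_trans this ?_
    rw [← hf]
    exact h3 h c
  -- the darts of the small vertices
  have h5 : ∀ h c, CON_rel σ (oppI H) (Sum.inr (h, c), true) (f h 0) := by
    intro h c
    have := hs (Sum.inr (h, c), true)
    rw [hR.edY] at this
    exact CON_trans (CON_symm this) (h4 h c.1)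
  have h6 : ∀ h c, CON_rel σ (oppI H) (Sum.inr (h, c), false) (f h 0) := by
    intro h c
    have := ht (Sum.inr (h, c), true)
    rw [ho] at this
    exact CON_trans this (h5 h c)
  -- neighbours
  have h7 : ∀ h c, CON_rel σ (oppI H) (f (h * s c) 0) (f h 0) := by
    intro h c
    by_cases hc : KL c
    · have := hs (Sum.inr (h, ⟨c, hc⟩), false)
      rw [hR.sml] at this
      exact CON_trans (CON_symm (h6 (h * s c) ⟨c, hc⟩)) (CON_trans this (h6 h ⟨c, hc⟩))
    · have := hs (Sum.inl (h, c), true)
      rw [hR.edR h c hc] at this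
      exact CON_trans (CON_symm (h4 (h * s c) c)) (CON_trans this (h4 h c))
  have h8 : ∀ g : H, ∀ h, CON_rel σ (oppI H) (f (h * g) 0) (f h 0) := by
    intro g
    have hg : g ∈ Subgroup.closure (Set.range s) := by rw [hG.gen]; exact Subgroup.mem_top g
    induction hg using Subgroup.closure_induction with
    | mem x hx =>
      obtain ⟨c, rfl⟩ := hx
      exact fun h => h7 h c
    | one =>
      intro h
      rw [mul_one]
      exact CON_refl _
    | mul x y _ _ hx hy =>
      intro h
      rw [← mul_assoc]
      exact CON_trans (hy (h * x)) (hx h)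
    | inv x _ hx =>
      intro h
      have := hx (h * x⁻¹)
      rw [inv_mul_cancel_right] at this
      exact CON_symm this
  have h9 : ∀ h, CON_rel σ (oppI H) (f h 0) (f 1 0) := by
    intro h
    have := h8 h 1
    rwa [one_mul] at this
  have h10 : ∀ d, CON_rel σ (oppI H) d (f 1 0) := by
    rintro ⟨i, b⟩
    rcases i with ⟨h, c⟩ | ⟨h, c⟩
    · cases b
      · rw [← hf]; exact CON_trans (h3 h c) (h9 h)
      · exact CON_trans (h4 h c) (h9 h)
    · cases b
      · exact CON_trans (h6 h c) (h9 h)
      · exact CON_trans (h5 h c) (h9 h)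
  unfold comps
  have hss : Subsingleton (MulAction.orbitRel.Quotient (Subgroup.closure ({σ, oppI H} : Set (Perm (II H × Bool)))) (II H × Bool)) := by
    constructor
    intro a b
    induction a using Quotient.inductionOn'
    induction b using Quotient.inductionOn'
    exact Quotient.sound' (CON_trans (h10 _) (CON_symm (h10 _)))
  exact Finite.card_le_one_iff_subsingleton.2 hss

end Pool.Agent.NTA
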