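import Pool.Agent.helper3.NTH.Hub

/-!
# MP_c8d30a: the invariant involution `mu`

`sg s` = the product of the two cyclic permutations (successors), `sh s` = corrected at the fronts; `mu s = (sh s)⁻¹ * p * sh s`
(corner `t` to corner `pred (p (succ t))`, through the start and the end corner).  A step with the winner on the left keeps `sh`;
`mu` is symmetric, so all steps keep `mu`.
-/

set_option autoImplicit false

namespace NTH

open Equiv List

variable {Ω : Type} [DecidableEq Ω] {p : Ω → Ω}

/-- the partner map as a permutation. -/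
def pm (p : Ω → Ω) (h : ∀ t, p (p t) = t) : Perm Ω := ⟨p, p, h, h⟩

@[simp] theorem pm_apply (h : ∀ t, p (p t) = t) (t : Ω) : pm p h t = p t := rfl

/-- the successors. -/
def sg (s : St Ω) : Perm Ω := formPerm s.1 * formPerm s.2

/-- the successors, corrected at the fronts. -/
def sh (p : Ω → Ω) (s : St Ω) : Perm Ω :=
  match s with
  | (x :: U, y :: V) => swap y (p x) * (formPerm (x :: U) * formPerm (y :: V))
  | _ => 1

/-- the invariant. -/
def mu (p : Ω → Ω) (h : ∀ t, p (p t) = t) (s : St Ω) : Perm Ω := (sh p s)⁻¹ * pm p h * sh p s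

theorem formPerm_mul_swap {l : List Ω} {y a : Ω} (hy : y ∉ l) (ha : a ∉ l) :
    formPerm l * swap y a = swap y a * formPerm l := by
  rw [mul_swap_eq_swap_mul, formPerm_apply_of_notMem hy, formPerm_apply_of_notMem ha]

/-- insertion of `y` before `z`. -/
theorem formPerm_insert (y z : Ω) (B : List Ω) : ∀ (A : List Ω) (a : Ω), (a :: (A ++ y :: z :: B)).Nodup →
    formPerm (a :: (A ++ y :: z :: B)) = swap y z * formPerm (a :: (A ++ z :: B)) := by
  intro A
  induction A with
  | nil =>
    intro a h
    simp only [nil_append, nodup_cons, mem_cons, not_or] at h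
    rw [nil_append, nil_append, formPerm_cons_cons, formPerm_cons_cons, formPerm_cons_cons, ← mul_assoc, ← mul_assoc,
      mul_swap_eq_swap_mul (Equiv.swap y z) a z, swap_apply_of_ne_of_ne h.1.1 h.1.2.1, swap_apply_right]
  | cons a' A ih =>
    intro a h
    have h1 : (a' :: (A ++ y :: z :: B)).Nodup := by
      rw [cons_append] at h
      exact (nodup_cons.1 h).2
    have h2 : a ≠ y ∧ a ≠ z ∧ a' ≠ y ∧ a' ≠ z := by
      simp only [cons_append, nodup_cons, mem_cons, mem_append, not_or] at h
      exact ⟨h.1.2.2.1, h.1.2.2.2.1, h.2.1.2.1, h.2.1.2.2.1⟩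
    rw [cons_append, cons_append, formPerm_cons_cons, formPerm_cons_cons, ih a' h1, ← mul_assoc, ← mul_assoc,
      mul_swap_eq_swap_mul (swap y z), swap_apply_of_ne_of_ne h2.1 h2.2.1, swap_apply_of_ne_of_ne h2.2.2.1 h2.2.2.2]

theorem sh_left {c : ℕ} {s t : St Ω} (hw : WF p s) (h : SL p c s t) (ht : t.2 ≠ []) : sh p t = sh p s := by
  have hnd := hw.nd
  cases h with
  | reg x y U A B =>
    cases A with
    | nil => rfl
    | cons a A =>
      simp only [cons_append, nodup_cons, mem_cons, mem_append, not_or, nodup_append, nodup_middle] at hnd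
      have hay : a ≠ y := by tauto
      have hap : a ≠ p x := by tauto
      have hyU : y ∉ x :: U := by
        simp only [mem_cons, not_or]
        refine ⟨fun h => ?_, fun h => ?_⟩
        · exact hnd.1.2.1 h.symm
        · exact hnd.2.2.2 y h y (Or.inl rfl) rfl
      have haU : a ∉ x :: U := by
        simp only [mem_cons, not_or]
        refine ⟨fun h => ?_, fun h => ?_⟩
        · exact hnd.1.2.2.1 h.symm
        · exact hnd.2.2.2 a h a (Or.inr (Or.inl rfl)) rfl
      have hpU : p x ∉ x :: U := by
        simp only [mem_cons, not_or]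
        refine ⟨hw.ne x, fun h => ?_⟩
        exact hnd.2.2.2 (p x) h (p x) (Or.inr (Or.inr (Or.inr (Or.inl rfl)))) rfl
      have hnd' : (a :: (A ++ y :: p x :: B)).Nodup := by
        have h1 := hw.nd
        have h2 : (y :: (a :: A ++ p x :: B)).Nodup := (nodup_append.1 h1).2.1
        refine (Perm.nodup_iff ?_).1 h2
        have : (y :: (a :: A ++ p x :: B)).Perm (a :: A ++ y :: p x :: B) := perm_middle.symm
        exact this
      simp only [sh, cons_append]
      rw [formPerm_insert y (p x) B A a hnd', formPerm_cons_cons, ← mul_assoc (formPerm (x :: U)), ← mul_assoc (formPerm (x :: U)),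
        formPerm_mul_swap hyU hpU, formPerm_mul_swap hyU haU]
      simp only [← mul_assoc]
      congr 2
      rw [mul_swap_eq_swap_mul (swap y (p x)) y a, swap_apply_left, swap_apply_of_ne_of_ne hay hap, Equiv.swap_comm (p x) a]
  | tr x y A B V =>
    cases V with
    | nil => exact absurd rfl ht
    | cons a V =>
      have hperm : (y :: (x :: (A ++ p x :: B) ++ a :: V)).Nodup := by
        refine (Perm.nodup_iff ?_).1 hnd
        exact perm_middle
      have h1 := nodup_cons.1 hperm
      have h2 : (a :: (x :: (A ++ p x :: B) ++ V)).Nodup := (Perm.nodup_iff perm_middle).1 h1.2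
      have h3 := nodup_cons.1 h2
      have hyU : y ∉ x :: (A ++ p x :: B) := fun h => h1.1 (mem_append_left _ h)
      have haU : a ∉ x :: (A ++ p x :: B) := fun h => h3.1 (mem_append_left _ h)
      have hay : a ≠ y := by
        rintro rfl
        exact h1.1 (mem_append_right _ (mem_cons_self))
      have hap : a ≠ p x := by
        rintro rfl
        exact haU (by simp)
      have hnd' : (x :: (A ++ y :: p x :: B)).Nodup := by
        have h4 : (y :: (x :: (A ++ p x :: B))).Nodup :=
          nodup_cons.2 ⟨hyU, (nodup_append.1 hnd).1⟩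
        refine (Perm.nodup_iff ?_).1 h4
        have : (y :: (x :: A ++ p x :: B)).Perm (x :: A ++ y :: p x :: B) := perm_middle.symm
        exact this
      simp only [sh]
      rw [formPerm_insert y (p x) B A x hnd', formPerm_cons_cons y a, ← mul_assoc (formPerm (x :: (A ++ p x :: B))),
        formPerm_mul_swap hyU haU]
      simp only [← mul_assoc]
      congr 2
      rw [mul_swap_eq_swap_mul (swap y (p x)) y a, swap_apply_left, swap_apply_of_ne_of_ne hay hap, Equiv.swap_comm (p x) a]

theorem pm_mul_swap (h : ∀ t, p (p t) = t) (a b : Ω) : pm p h * swap a b = swap (p a) (p b) * pm p h := by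
  rw [mul_swap_eq_swap_mul]
  rfl

theorem mu_mir (h : ∀ t, p (p t) = t) {s : St Ω} (hw : WF p s) : mu p h (mir s) = mu p h s := by
  obtain ⟨U, V⟩ := s
  cases U with
  | nil => cases V <;> rfl
  | cons x U =>
    cases V with
    | nil => rfl
    | cons y V =>
      have hd : Perm.Disjoint (formPerm (x :: U)) (formPerm (y :: V)) := by
        rw [Perm.disjoint_iff_eq_or_eq]
        intro t
        by_cases ht : t ∈ x :: U
        · right
          apply formPerm_apply_of_notMem
          intro h2
          exact (nodup_append.1 hw.nd).2.2 t ht t h2 rfl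
        · left
          exact formPerm_apply_of_notMem ht
      have hxy : x ≠ y := by
        rintro rfl
        exact (nodup_append.1 hw.nd).2.2 x (mem_cons_self) x (mem_cons_self) rfl
      simp only [mu, sh, mir_mk]
      rw [hd.commute.eq]
      simp only [mul_inv_rev, swap_inv]
      -- the kernel identity
      have key : swap x (p y) * pm p h * swap x (p y) = swap y (p x) * pm p h * swap y (p x) := by
        by_cases hyx : y = p x
        · subst hyx
          rw [h, Equiv.swap_self, Equiv.swap_self]
        · have hxp : x ≠ p y := fun h1 => hyx (by rw [h1, h])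
          rw [mul_assoc, pm_mul_swap, mul_assoc (swap y (p x)), pm_mul_swap, ← mul_assoc, ← mul_assoc, h, h]
          congr 1
          have h1 : p x ≠ x := hw.ne x
          have h2 : p y ≠ y := hw.ne y
          have h3 : p x ≠ p y := fun h1 => hxy (by rw [← h x, h1, h])
          rw [mul_swap_eq_swap_mul, swap_apply_of_ne_of_ne h1 h3, swap_apply_of_ne_of_ne hxy.symm h2.symm,
            Equiv.swap_comm (p x) y, Equiv.swap_comm (p y) x]
      have e1 : ∀ g : Perm Ω, g⁻¹ * swap x (p y) * pm p h * (swap x (p y) * g) = g⁻¹ * (swap x (p y) * pm p h * swap x (p y)) * g := by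
        intro g; simp only [mul_assoc]
      have e2 : ∀ g : Perm Ω, g⁻¹ * swap y (p x) * pm p h * (swap y (p x) * g) = g⁻¹ * (swap y (p x) * pm p h * swap y (p x)) * g := by
        intro g; simp only [mul_assoc]
      have e3 := e1 (formPerm (y :: V) * formPerm (x :: U))
      have e4 := e2 (formPerm (y :: V) * formPerm (x :: U))
      simp only [mul_inv_rev] at e3 e4
      rw [e3, e4, key]

/-- `mu` is invariant. -/
theorem mu_step (h : ∀ t, p (p t) = t) {c : ℕ} {s t : St Ω} (hw : WF p s) (hs : Sp p c s t) (h1 : t.1 ≠ []) (h2 : t.2 ≠ []) :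
    mu p h t = mu p h s := by
  rcases hs with hs | hs
  · simp only [mu, sh_left hw hs h2]
  · have hwt : WF p (mir t) := hw.mir.of_perm (Sp.perm (Or.inl hs))
    have h3 := sh_left hw.mir hs h1
    rw [← mu_mir h hw, ← mir_mir t, mu_mir h hwt]
    simp only [mu, h3]

theorem N.ne1 {s : St Ω} (h : N p s) : s.1 ≠ [] := by
  obtain ⟨⟨r, h1, -⟩, -⟩ := h
  exact ne_nil_of_mem h1

theorem N.ne2 {s : St Ω} (h : N p s) : s.2 ≠ [] := by
  obtain ⟨-, ⟨r, h1, -⟩⟩ := h
  exact ne_nil_of_mem h1

theorem mu_reach (h : ∀ t, p (p t) = t) {a : ℕ} {s t : St Ω} (hw : WF p s) (hr : Reach p a s t) : mu p h t = mu p h s := by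
  induction hr with
  | refl a s _ => rfl
  | head hN hs ht ih =>
    rw [ih (hw.of_perm hs.perm)]
    exact mu_step h hw hs ht.left.ne1 ht.left.ne2

end NTH
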