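import Pool.Agent.helper14.NTA.Refl
import Pool.Agent.helper14.NTA.Mu
import Pool.Agent.helper14.NT.Abstract
import Pool.Agent.helper65.GP.ASM

/-!
# MP_c8d30a: the states with a given `mu`, the action of the reflections, the bound by representatives
-/

set_option autoImplicit false

namespace NTH

open Equiv

variable {Ω : Type} {p : Ω → Ω}

/-! ## Relabelling -/

/-- relabelling of the tokens. -/
def rel (g : Ω → Ω) (s : St Ω) : St Ω := (s.1.map g, s.2.map g)

theorem rel_mir (g : Ω → Ω) (s : St Ω) : rel g (mir s) = mir (rel g s) := rfl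

theorem rel_rel (g g' : Ω → Ω) (s : St Ω) : rel g (rel g' s) = rel (fun t => g (g' t)) s := by
  simp only [rel, List.map_map]
  rfl

theorem rel_id (g : Ω → Ω) (hg : ∀ t, g t = t) (s : St Ω) : rel g s = s := by
  have : g = id := funext hg
  subst this
  simp [rel]

theorem SL.rel {g : Ω → Ω} (hg : ∀ t, g (p t) = p (g t)) {c : ℕ} {s t : St Ω} (h : SL p c s t) : SL p c (rel g s) (rel g t) := by
  cases h with
  | reg x y U A B =>
    simp only [NTH.rel, List.map_cons, List.map_append, hg]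
    exact SL.reg _ _ _ _ _
  | tr x y A B V =>
    simp only [NTH.rel, List.map_cons, List.map_append, hg]
    exact SL.tr _ _ _ _ _

theorem Sp.rel {g : Ω → Ω} (hg : ∀ t, g (p t) = p (g t)) {c : ℕ} {s t : St Ω} (h : Sp p c s t) : Sp p c (rel g s) (rel g t) := by
  rcases h with h | h
  · exact Or.inl (h.rel hg)
  · exact Or.inr (h.rel hg)

theorem N.rel {g : Ω → Ω} (hg : ∀ t, g (p t) = p (g t)) {s : St Ω} (h : N p s) : N p (rel g s) := by
  obtain ⟨⟨r, h1, h2⟩, ⟨b, h3, h4⟩⟩ := h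
  refine ⟨⟨g r, List.mem_map_of_mem h1, ?_⟩, ⟨g b, List.mem_map_of_mem h3, ?_⟩⟩
  · rw [← hg]; exact List.mem_map_of_mem h2
  · rw [← hg]; exact List.mem_map_of_mem h4

theorem Reach.rel {g : Ω → Ω} (hg : ∀ t, g (p t) = p (g t)) {a : ℕ} {s t : St Ω} (h : Reach p a s t) :
    Reach p a (rel g s) (rel g t) := by
  induction h with
  | refl a s h => exact .refl _ _ (h.rel hg)
  | head hs h _ ih => exact .head (hs.rel hg) (h.rel hg) ih

theorem WF.rel {g : Ω → Ω} (hg : ∀ t, g (p t) = p (g t)) (hi : Function.Injective g) {s : St Ω} (h : WF p s) : WF p (rel g s) := by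
  have e : (NTH.rel g s).1 ++ (NTH.rel g s).2 = (s.1 ++ s.2).map g := by
    simp [NTH.rel]
  refine ⟨?_, ?_, h.inv, h.ne⟩
  · rw [e]
    exact h.nd.map hi
  · rw [e]
    intro t ht
    obtain ⟨t', h1, rfl⟩ := List.mem_map.1 ht
    rw [← hg]
    exact List.mem_map_of_mem (h.cl t' h1)

theorem Irr.rel {g : Ω → Ω} (hg : ∀ t, g (p t) = p (g t)) (hi : Function.Injective g) {s : St Ω} (h : Irr p s) : Irr p (rel g s) := by
  intro U1 U2 V1 V2 hs h1 h2 hc
  rw [NTH.rel, Prod.mk.injEq, List.map_eq_append_iff, List.map_eq_append_iff] at hs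
  obtain ⟨⟨U1', U2', e1, rfl, rfl⟩, V1', V2', e2, rfl, rfl⟩ := hs
  have := h U1' U2' V1' V2' (Prod.ext e1 e2) (by rintro rfl; exact h1 rfl) (by rintro rfl; exact h2 rfl) (by
    intro t ht
    have h3 := hc (g t) (by rw [← List.map_append]; exact List.mem_map_of_mem ht)
    rw [← hg, ← List.map_append, List.mem_map] at h3
    obtain ⟨t', h4, h5⟩ := h3
    rw [hi h5] at h4
    exact h4)
  rw [this.1, this.2]
  exact ⟨rfl, rfl⟩

section
variable [DecidableEq Ω]

theorem formPerm_rel (g : Perm Ω) (l : List Ω) : List.formPerm (l.map g) = g * List.formPerm l * g⁻¹ := by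
  induction l with
  | nil => simp
  | cons x l ih =>
    cases l with
    | nil => simp
    | cons y l =>
      rw [List.map_cons] at ih
      rw [List.map_cons, List.map_cons, List.formPerm_cons_cons, List.formPerm_cons_cons, ih, Equiv.swap_apply_apply]
      group

theorem mu_rel (h : ∀ t, p (p t) = t) (g : Perm Ω) (hg : ∀ t, g (p t) = p (g t)) (s : St Ω) :
    s.1 ≠ [] → s.2 ≠ [] → mu p h (rel g s) = g * mu p h s * g⁻¹ := by
  intro h1 h2
  obtain ⟨U, V⟩ := s
  cases U with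
  | nil => exact absurd rfl h1
  | cons x U =>
    cases V with
    | nil => exact absurd rfl h2
    | cons y V =>
      have e : sh p (rel g (x :: U, y :: V)) = g * sh p (x :: U, y :: V) * g⁻¹ := by
        have e1 := formPerm_rel g (x :: U)
        have e2 := formPerm_rel g (y :: V)
        rw [List.map_cons] at e1 e2
        simp only [rel, sh, List.map_cons]
        rw [e1, e2, ← hg, Equiv.swap_apply_apply]
        group
      have e3 : pm p h = g * pm p h * g⁻¹ := by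
        ext t
        simp only [Perm.mul_apply, pm_apply, hg]
        simp
      unfold mu
      rw [e]
      conv_lhs => rw [e3]
      group

end

/-! ## Paths -/

theorem Reach.cut {c : ℕ} {s t : St Ω} (h : Reach p c s t) : ∀ a b, c = a + b → ∃ z, Reach p a s z ∧ Reach p b z t := by
  induction h with
  | refl c s hN => exact fun a b _ => ⟨s, .refl _ _ hN, .refl _ _ hN⟩
  | @head a0 c0 s t v hs h ht ih =>
    intro a b hab
    have h1 := h.le_one
    by_cases hc : c0 ≤ a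
    · obtain ⟨z, h2, h3⟩ := ih (a - c0) b (by omega)
      refine ⟨z, ?_, h3⟩
      have h4 : Reach p (c0 + (a - c0)) s z := .head hs h h2
      rwa [Nat.add_sub_cancel' hc] at h4
    · have h2 : a = 0 := by omega
      subst h2
      refine ⟨s, .refl _ _ hs, ?_⟩
      have h4 : Reach p (c0 + a0) s v := .head hs h ht
      rwa [hab, zero_add] at h4

/-- the first state with the property `B`, with exact costs. -/
theorem Pth.first2 {Q B : St Ω → Prop} {a : ℕ} {s t : St Ω} (h : Pth p Q a s t) :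
    Pth p (fun x => Q x ∧ ¬ B x) a s t ∨ ∃ (v : St Ω) (b c : ℕ), B v ∧ Pth p Q b v t ∧ c + b = a ∧ Pth p Q c s v ∧
      (c = 0 ∨ ∃ (w : St Ω) (c' : ℕ), c ≤ c' + 1 ∧ Pth p (fun x => Q x ∧ ¬ B x) c' s w) := by
  classical
  induction h with
  | refl s h =>
    by_cases hB : B s
    · exact Or.inr ⟨s, 0, 0, hB, .refl s h, rfl, .refl s h, Or.inl rfl⟩
    · exact Or.inl (.refl s ⟨h, hB⟩)
  | @head a c s t v hs h ht ih =>
    by_cases hB : B s
    · exact Or.inr ⟨s, c + a, 0, hB, .head hs h ht, by omega, .refl s hs, Or.inl rfl⟩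
    · rcases ih with ih | ⟨v', b, c', h1, h2, h3, h4, h5⟩
      · exact Or.inl (.head ⟨hs, hB⟩ h ih)
      · refine Or.inr ⟨v', b, c + c', h1, h2, by omega, .head hs h h4, Or.inr ?_⟩
        rcases h5 with rfl | ⟨w, c'', h6, h7⟩
        · exact ⟨s, 0, by have := h.le_one; omega, .refl s ⟨hs, hB⟩⟩
        · exact ⟨w, c + c'', by omega, .head ⟨hs, hB⟩ h h7⟩

/-- the last tokens do not change. -/
theorem Sp.last {c : ℕ} {s t : St Ω} (h : Sp p c s t) (h1 : t.1 ≠ []) (h2 : t.2 ≠ []) :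
    t.1.getLast? = s.1.getLast? ∧ t.2.getLast? = s.2.getLast? := by
  have key : ∀ {s t : St Ω}, SL p c s t → t.2 ≠ [] → t.1.getLast? = s.1.getLast? ∧ t.2.getLast? = s.2.getLast? := by
    intro s t h ht
    cases h with
    | reg x y U A B =>
      refine ⟨rfl, ?_⟩
      show (A ++ y :: p x :: B).getLast? = ((y :: A) ++ p x :: B).getLast?
      rw [List.getLast?_append_cons, List.getLast?_append_cons, List.getLast?_cons_cons]
    | tr x y A B V =>
      refine ⟨?_, ?_⟩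
      · show ((x :: A) ++ y :: p x :: B).getLast? = ((x :: A) ++ p x :: B).getLast?
        rw [List.getLast?_append_cons, List.getLast?_append_cons, List.getLast?_cons_cons]
      · cases V with
        | nil => exact absurd rfl ht
        | cons a V => simp
  rcases h with h | h
  · exact key h h2
  · exact (key h h1).symm

/-! ## The states with a given `mu` -/

section
variable [DecidableEq Ω]

/-- the states of the class of `s₀`. -/
structure XS (p : Ω → Ω) (h : ∀ t, p (p t) = t) (s₀ s : St Ω) : Prop where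
  wf : WF p s
  irr : Irr p s
  n : N p s
  perm : (s.1 ++ s.2).Perm (s₀.1 ++ s₀.2)
  mu : NTH.mu p h s = NTH.mu p h s₀
  l1 : s.1.getLast? = s₀.1.getLast?
  l2 : s.2.getLast? = s₀.2.getLast?

variable {h : ∀ t, p (p t) = t}

theorem XS.reach {s₀ s t : St Ω} {a : ℕ} (hx : XS p h s₀ s) (hr : Reach p a s t) : XS p h s₀ t := by
  induction hr with
  | refl a s _ => exact hx
  | @head a c s t v hN hs ht ih =>
    apply ih
    have h1 := hs.last ht.left.ne1 ht.left.ne2
    exact ⟨hx.wf.of_perm hs.perm, hx.irr.step hx.wf hs, ht.left, hs.perm.symm.trans hx.perm,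
      (mu_step h hx.wf hs ht.left.ne1 ht.left.ne2).trans hx.mu, h1.1.trans hx.l1, h1.2.trans hx.l2⟩

theorem XS.refl {s₀ : St Ω} (hw : WF p s₀) (hi : Irr p s₀) (hn : N p s₀) : XS p h s₀ s₀ :=
  ⟨hw, hi, hn, List.Perm.refl _, rfl, rfl, rfl⟩

theorem inv2 {s₀ : St Ω} (hw : WF p s₀) : Inv2 (pm p h) (NTH.mu p h s₀) := by
  refine ⟨?_, ?_, fun t => hw.ne t, ?_⟩
  · ext t; simp [h]
  · have e : pm p h * pm p h = 1 := by ext t; simp [h]
    unfold NTH.mu
    calc (sh p s₀)⁻¹ * pm p h * sh p s₀ * ((sh p s₀)⁻¹ * pm p h * sh p s₀)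
        = (sh p s₀)⁻¹ * (pm p h * pm p h) * sh p s₀ := by group
      _ = 1 := by rw [e]; group
  · intro t ht
    unfold NTH.mu at ht
    rw [Perm.mul_apply, Perm.mul_apply, Perm.inv_eq_iff_eq] at ht
    exact hw.ne _ ht

/-- the functions constant on the vertices, `0` at the last tokens. -/
def VS (p : Ω → Ω) (h : ∀ t, p (p t) = t) (s₀ : St Ω) : Submodule (ZMod 2) (Ω → ZMod 2) where
  carrier := {φ | (∀ t, φ (p t) = φ t) ∧ (∀ t, φ (NTH.mu p h s₀ t) = φ t) ∧
    ∀ t, (s₀.1.getLast? = some t ∨ s₀.2.getLast? = some t) → φ t = 0}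
  zero_mem' := ⟨fun _ => rfl, fun _ => rfl, fun _ _ => rfl⟩
  add_mem' := by
    rintro φ ψ ⟨h1, h2, h3⟩ ⟨h4, h5, h6⟩
    refine ⟨fun t => ?_, fun t => ?_, fun t ht => ?_⟩
    · simp only [Pi.add_apply, h1, h4]
    · simp only [Pi.add_apply, h2, h5]
    · simp only [Pi.add_apply, h3 t ht, h6 t ht, add_zero]
  smul_mem' := by
    rintro c φ ⟨h1, h2, h3⟩
    refine ⟨fun t => ?_, fun t => ?_, fun t ht => ?_⟩
    · simp only [Pi.smul_apply, h1]
    · simp only [Pi.smul_apply, h2]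
    · simp only [Pi.smul_apply, h3 t ht, smul_zero]

/-- the relabelling of `φ`. -/
noncomputable def act {s₀ : St Ω} (hw : WF p s₀) (φ : Ω → ZMod 2) (t : Ω) : Ω :=
  if φ t = 0 then t else (inv2 (h := h) hw).tau t

theorem act_p {s₀ : St Ω} (hw : WF p s₀) {φ : Ω → ZMod 2} (hφ : φ ∈ VS p h s₀) (t : Ω) : act (h := h) hw φ (p t) = p (act (h := h) hw φ t) := by
  unfold act
  rw [hφ.1]
  split_ifs
  · rfl
  · exact (inv2 (h := h) hw).tau_P t

theorem act_mu {s₀ : St Ω} (hw : WF p s₀) {φ : Ω → ZMod 2} (hφ : φ ∈ VS p h s₀) (t : Ω) :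
    act (h := h) hw φ (NTH.mu p h s₀ t) = NTH.mu p h s₀ (act (h := h) hw φ t) := by
  unfold act
  rw [hφ.2.1]
  split_ifs
  · rfl
  · exact (inv2 (h := h) hw).tau_M t

theorem tau_val {s₀ : St Ω} (hw : WF p s₀) {φ : Ω → ZMod 2} (hφ : φ ∈ VS p h s₀) (t : Ω) :
    φ ((inv2 (h := h) hw).tau t) = φ t :=
  (inv2 (h := h) hw).tau_const φ hφ.1 hφ.2.1 t

theorem act_add {s₀ : St Ω} (hw : WF p s₀) {φ ψ : Ω → ZMod 2} (hφ : φ ∈ VS p h s₀) (t : Ω) :
    act (h := h) hw (φ + ψ) t = act (h := h) hw φ (act (h := h) hw ψ t) := by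
  unfold act
  rcases Pool.Agent.helper14.NT.zmod2_cases (ψ t) with h1 | h1
  · rw [if_pos h1, Pi.add_apply, h1, add_zero]
  · rw [if_neg (by rw [h1]; decide : ¬ ψ t = 0), tau_val hw hφ, Pi.add_apply, h1]
    rcases Pool.Agent.helper14.NT.zmod2_cases (φ t) with h2 | h2
    · rw [h2, if_pos rfl, zero_add, if_neg (by decide)]
    · rw [h2, if_pos (by decide), if_neg (by decide), (inv2 (h := h) hw).tau_tau]

theorem act_zero {s₀ : St Ω} (hw : WF p s₀) (t : Ω) : act (h := h) hw 0 t = t := by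
  unfold act
  exact if_pos rfl

theorem act_act {s₀ : St Ω} (hw : WF p s₀) {φ : Ω → ZMod 2} (hφ : φ ∈ VS p h s₀) (t : Ω) :
    act (h := h) hw φ (act (h := h) hw φ t) = t := by
  have h1 := act_add (h := h) hw (ψ := φ) hφ t
  have h2 : φ + φ = 0 := by
    funext t
    have : ∀ c : ZMod 2, c + c = 0 := by decide
    exact this _
  rw [h2, act_zero] at h1
  exact h1.symm

/-- the relabelling as a permutation. -/
noncomputable def actP {s₀ : St Ω} (hw : WF p s₀) {φ : Ω → ZMod 2} (hφ : φ ∈ VS p h s₀) : Perm Ω :=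
  ⟨act (h := h) hw φ, act (h := h) hw φ, act_act hw hφ, act_act hw hφ⟩

theorem XS.act {s₀ s : St Ω} (hw : WF p s₀) (hall : ∀ t, t ∈ s₀.1 ++ s₀.2) {φ : Ω → ZMod 2} (hφ : φ ∈ VS p h s₀) (hx : XS p h s₀ s) :
    XS p h s₀ (rel (NTH.act (h := h) hw φ) s) := by
  have hg : ∀ t, NTH.act (h := h) hw φ (p t) = p (NTH.act (h := h) hw φ t) := act_p hw hφ
  have hi : Function.Injective (NTH.act (h := h) hw φ) := (actP (h := h) hw hφ).injective
  have hwf := hx.wf.rel hg hi
  have hlast : ∀ l l₀ : List Ω, l.getLast? = l₀.getLast? → (∀ t, l₀.getLast? = some t → φ t = 0) →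
      (l.map (NTH.act (h := h) hw φ)).getLast? = l₀.getLast? := by
    intro l l₀ h1 h2
    rw [List.getLast?_map, h1]
    cases h3 : l₀.getLast? with
    | none => rfl
    | some t =>
      rw [Option.map_some]
      congr 1
      unfold NTH.act
      rw [if_pos (h2 t h3)]
  refine ⟨hwf, hx.irr.rel hg hi, hx.n.rel hg, ?_, ?_, hlast _ _ hx.l1 (fun t ht => hφ.2.2 t (Or.inl ht)), hlast _ _ hx.l2 (fun t ht => hφ.2.2 t (Or.inr ht))⟩
  · refine (List.perm_ext_iff_of_nodup hwf.nd (hx.perm.nodup_iff.1 hx.wf.nd)).2 fun t => ⟨fun _ => hall t, fun _ => ?_⟩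
    have e : (NTH.rel (NTH.act (h := h) hw φ) s).1 ++ (NTH.rel (NTH.act (h := h) hw φ) s).2 = (s.1 ++ s.2).map (NTH.act (h := h) hw φ) := by
      simp [NTH.rel]
    rw [e, List.mem_map]
    exact ⟨NTH.act (h := h) hw φ t, hx.perm.mem_iff.2 (hall _), act_act hw hφ t⟩
  · have h1 := mu_rel h (actP (h := h) hw hφ) hg s hx.n.ne1 hx.n.ne2
    have h2 : NTH.mu p h (rel (NTH.act (h := h) hw φ) s) = actP (h := h) hw hφ * NTH.mu p h s * (actP (h := h) hw hφ)⁻¹ := h1
    rw [h2, hx.mu, mul_inv_eq_iff_eq_mul]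
    ext t
    exact act_mu hw hφ t

/-! ## The bound by representatives -/

/-- the bound. -/
def BR (N0 P m : ℕ) : ℕ := N0 * (2 * P + m * (2 * N0 * (2 * P + 1 + (m * m + 1)) + (m * m + 1)) + 1 + (m * m + 1)) + (m * m + 1)

theorem REPS [Fintype Ω] {s₀ : St Ω} (hx₀ : XS p h s₀ s₀) (hall : ∀ t, t ∈ s₀.1 ++ s₀.2) {N0 P : ℕ} (hN0 : 0 < N0) (rep : Fin N0 → St Ω)
    (hrep : ∀ x, XS p h s₀ x → ¬ PFs p x → ∃ (k : Fin N0) (φ : Ω → ZMod 2), φ ∈ VS p h s₀ ∧ XS p h s₀ (rep k) ∧
      RT p P x (rel (act (h := h) hx₀.wf φ) (rep k))) {a : ℕ} {t : St Ω} (hr : Reach p a s₀ t) :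
    Reach p (BR N0 P (s₀.1 ++ s₀.2).length) s₀ t := by
  classical
  set m := (s₀.1 ++ s₀.2).length with hm
  have hcard : Fintype.card Ω = m := by
    rw [hm, ← List.toFinset_card_of_nodup hx₀.wf.nd, ← Finset.card_univ]
    congr 1
    ext t
    simpa using hall t
  let X := {s : St Ω // XS p h s₀ s}
  let _ : AddAction (VS p h s₀) X :=
    { vadd := fun φ s => ⟨rel (act (h := h) hx₀.wf φ.1) s.1, s.2.act hx₀.wf hall φ.2⟩
      zero_vadd := fun s => Subtype.ext (rel_id _ (fun t => act_zero hx₀.wf t) _)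
      add_vadd := fun φ ψ s => Subtype.ext (by
        show rel (act (h := h) hx₀.wf (φ.1 + ψ.1)) s.1 = rel (act (h := h) hx₀.wf φ.1) (rel (act (h := h) hx₀.wf ψ.1) s.1)
        rw [rel_rel]
        congr 1
        funext t
        exact act_add hx₀.wf φ.2 t) }
  have hvadd : ∀ (φ : VS p h s₀) (s : X), (φ +ᵥ s).1 = rel (act (h := h) hx₀.wf φ.1) s.1 := fun _ _ => rfl
  let R : ℕ → X → X → Prop := fun a x y => Reach p a x.1 y.1
  have hR : Pool.Agent.helper14.NT.CostRel (VS p h s₀) R :=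
    { refl := fun x => .refl _ _ x.2.n
      trans := fun h1 h2 => h1.trans h2
      cut := fun {a b x y} h1 => by
        obtain ⟨z, h2, h3⟩ := Reach.cut h1 a b rfl
        exact ⟨⟨z, x.2.reach h2⟩, h2, h3⟩
      mono := fun h1 h2 => h2.mono h1
      inv := fun v h1 => h1.rel (act_p hx₀.wf v.2) }
  -- the representatives
  let L : Set X := {x | ∃ (k : Fin N0) (φ : Ω → ZMod 2), φ ∈ VS p h s₀ ∧ XS p h s₀ (rep k) ∧ x.1 = rel (act (h := h) hx₀.wf φ) (rep k)}
  let f : X → Fin N0 := fun x => if hx : x ∈ L then hx.choose else ⟨0, hN0⟩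
  have hf : ∀ l ∈ L, ∀ l' ∈ L, f l = f l' → ∃ v : VS p h s₀, l' = v +ᵥ l := by
    intro l hl l' hl' hff
    have e1 : f l = hl.choose := dif_pos hl
    have e2 : f l' = hl'.choose := dif_pos hl'
    obtain ⟨φ, h1, h2, h3⟩ := hl.choose_spec
    obtain ⟨ψ, h4, h5, h6⟩ := hl'.choose_spec
    rw [← e1] at h3 h2
    rw [← e2, ← hff] at h6
    let r : X := ⟨rep (f l), h2⟩
    have g1 : l = (⟨φ, h1⟩ : VS p h s₀) +ᵥ r := Subtype.ext h3
    have g2 : l' = (⟨ψ, h4⟩ : VS p h s₀) +ᵥ r := Subtype.ext h6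
    refine ⟨⟨ψ, h4⟩ - ⟨φ, h1⟩, ?_⟩
    rw [g1, g2, ← add_vadd, sub_add_cancel]
  have hgap : Pool.Agent.helper14.NT.Gap R L P (m * m + 1) := by
    intro a x y ha hr hmin
    obtain ⟨c, hc, hp⟩ := Reach.toPth hr
    have hca : a = c := le_antisymm (hmin c hp.toReach) hc
    subst hca
    have hlen : (x.1.1 ++ x.1.2).length = m := x.2.perm.length_eq
    rcases Pth.first2 (B := fun s => ¬ PFs p s) hp with h1 | ⟨v, b, c, h1, h2, h3, h4, h5⟩
    · exfalso
      have h2 := PF x.2.wf (h1.mono (Q' := PFs p) (fun s hs => not_not.1 hs.2))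
      rw [hlen] at h2
      omega
    · have hv : XS p h s₀ v := x.2.reach h4.toReach
      obtain ⟨k, φ, h6, h7, h8, h9⟩ := hrep v hv h1
      refine ⟨⟨v, hv⟩, ⟨rel (act (h := h) hx₀.wf φ) (rep k), h7.act hx₀.wf hall h6⟩, c, b, ⟨k, φ, h6, h7, rfl⟩, ?_, h3, h4.toReach, h2.toReach, h8, h9⟩
      rcases h5 with rfl | ⟨w, c', h10, h11⟩
      · exact Nat.zero_le _
      · have h12 := PF x.2.wf (h11.mono (Q' := PFs p) (fun s hs => not_not.1 hs.2))
        rw [hlen] at h12
        omega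
  have hfin : Module.finrank (ZMod 2) (VS p h s₀) ≤ m := by
    have h1 := Submodule.finrank_le (VS p h s₀)
    rwa [Module.finrank_fintype_fun_eq_card, hcard] at h1
  have ht : XS p h s₀ t := hx₀.reach hr
  exact Pool.Agent.helper14.NT.abstract_bound hR hfin hgap f hf ⟨s₀, hx₀⟩ ⟨t, ht⟩ ⟨a, hr⟩

end

end NTH
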