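import Pool.Agent.helper14.NTA.Act

/-!
# MP_c8d30a: words with cargo

`ww L a` = the word with the skeleton `a`; behind a letter `t` of the skeleton stands the list of the `z` with `(t, z)` in `L`.
-/

set_option autoImplicit false

namespace NTH

open Equiv

variable {Ω : Type} [DecidableEq Ω] {p : Ω → Ω}

/-- the tail of `t`. -/
def tl (L : List (Ω × Ω)) (t : Ω) : List Ω := (L.filter (fun q => q.1 = t)).map Prod.snd

/-- the word with the skeleton `a`. -/
def ww (L : List (Ω × Ω)) (a : List Ω) : List Ω := a.flatMap (fun t => t :: tl L t)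

/-- the product of the transpositions. -/
def cL (L : List (Ω × Ω)) : Perm Ω := (L.map (fun q => swap q.1 q.2)).reverse.prod

theorem cL_nil : cL ([] : List (Ω × Ω)) = 1 := rfl

theorem cL_cons (t z : Ω) (L : List (Ω × Ω)) : cL ((t, z) :: L) = cL L * swap t z := by
  simp [cL]

theorem tl_nil (t : Ω) : tl [] t = [] := rfl

theorem ww_nil (a : List Ω) : ww [] a = a := by
  induction a with
  | nil => rfl
  | cons x a ih =>
    show x :: ([] ++ ww [] a) = x :: a
    rw [ih]
    rfl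

theorem ww_cons (L : List (Ω × Ω)) (x : Ω) (a : List Ω) : ww L (x :: a) = x :: (tl L x ++ ww L a) := rfl

theorem ww_append (L : List (Ω × Ω)) (a b : List Ω) : ww L (a ++ b) = ww L a ++ ww L b := by
  simp [ww]

theorem ww_nil' (L : List (Ω × Ω)) : ww L [] = [] := rfl

theorem tl_cons_self (t z : Ω) (L : List (Ω × Ω)) : tl ((t, z) :: L) t = z :: tl L t := by
  simp [tl]

theorem tl_cons_ne {t s : Ω} (z : Ω) (L : List (Ω × Ω)) (h : t ≠ s) : tl ((t, z) :: L) s = tl L s := by
  simp [tl, h]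

theorem mem_tl {L : List (Ω × Ω)} {t z : Ω} : z ∈ tl L t ↔ (t, z) ∈ L := by
  unfold tl
  rw [List.mem_map]
  constructor
  · rintro ⟨⟨g, z'⟩, h1, rfl⟩
    rw [List.mem_filter] at h1
    have h2 : g = t := by simpa using h1.2
    subst h2
    exact h1.1
  · intro h
    exact ⟨(t, z), by simp [h], rfl⟩

theorem mem_ww {L : List (Ω × Ω)} {a : List Ω} {t : Ω} : t ∈ ww L a ↔ t ∈ a ∨ ∃ g ∈ a, (g, t) ∈ L := by
  unfold ww
  rw [List.mem_flatMap]
  constructor
  · rintro ⟨g, h1, h2⟩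
    rcases List.mem_cons.1 h2 with rfl | h2
    · exact Or.inl h1
    · exact Or.inr ⟨g, h1, mem_tl.1 h2⟩
  · rintro (h | ⟨g, h1, h2⟩)
    · exact ⟨t, h, List.mem_cons_self⟩
    · exact ⟨g, h1, List.mem_cons_of_mem _ (mem_tl.2 h2)⟩

theorem ww_cons_notMem {t z : Ω} {L : List (Ω × Ω)} {a : List Ω} (h : t ∉ a) : ww ((t, z) :: L) a = ww L a := by
  induction a with
  | nil => rfl
  | cons x a ih =>
    simp only [List.mem_cons, not_or] at h
    rw [ww_cons, ww_cons, ih h.2, tl_cons_ne z L h.1]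

theorem ww_congr {L L' : List (Ω × Ω)} {a : List Ω} (h : ∀ t ∈ a, tl L t = tl L' t) : ww L a = ww L' a := by
  induction a with
  | nil => rfl
  | cons x a ih =>
    rw [ww_cons, ww_cons, ih (fun t ht => h t (List.mem_cons_of_mem _ ht)), h x List.mem_cons_self]

theorem sublist_ww (L : List (Ω × Ω)) (a : List Ω) : a.Sublist (ww L a) := by
  induction a with
  | nil => exact List.Sublist.refl _
  | cons x a ih =>
    rw [ww_cons]
    exact (ih.trans (List.sublist_append_right _ _)).cons_cons x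

theorem ww_cons_sublist (t z : Ω) (L : List (Ω × Ω)) (a : List Ω) : (ww L a).Sublist (ww ((t, z) :: L) a) := by
  induction a with
  | nil => exact List.Sublist.refl _
  | cons x a ih =>
    rw [ww_cons, ww_cons]
    refine List.Sublist.cons_cons x (List.Sublist.append ?_ ih)
    by_cases h : t = x
    · subst h
      rw [tl_cons_self]
      exact List.sublist_cons_self _ _
    · rw [tl_cons_ne z L h]

/-- insertion of `z` behind `t`. -/
theorem formPerm_insert_after (t z : Ω) (l1 l2 : List Ω) (h : (l1 ++ t :: z :: l2).Nodup) :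
    List.formPerm (l1 ++ t :: z :: l2) = List.formPerm (l1 ++ t :: l2) * swap t z := by
  have hr : (l1 ++ t :: z :: l2) ~r (t :: z :: (l2 ++ l1)) := by
    have : (l1 ++ t :: z :: l2) ~r ((t :: z :: l2) ++ l1) := List.isRotated_append
    simpa using this
  have hr' : (l1 ++ t :: l2) ~r (t :: (l2 ++ l1)) := by
    have : (l1 ++ t :: l2) ~r ((t :: l2) ++ l1) := List.isRotated_append
    simpa using this
  have hn' : (l1 ++ t :: l2).Nodup := by
    refine h.sublist ?_
    exact List.Sublist.append (List.Sublist.refl _) ((List.sublist_cons_self _ _).cons_cons t)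
  have hn2 : (t :: z :: (l2 ++ l1)).Nodup := hr.nodup_iff.1 h
  rw [List.formPerm_eq_of_isRotated h hr, List.formPerm_eq_of_isRotated hn' hr', List.formPerm_cons_cons]
  have h1 := formPerm_rel (swap t z) (z :: (l2 ++ l1))
  have h2 : (z :: (l2 ++ l1)).map (swap t z) = t :: (l2 ++ l1) := by
    rw [List.map_cons, swap_apply_right]
    congr 1
    conv_rhs => rw [← List.map_id (l2 ++ l1)]
    apply List.map_congr_left
    intro s hs
    have h3 : s ≠ t := by
      rintro rfl
      exact (List.nodup_cons.1 hn2).1 (List.mem_cons_of_mem _ hs)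
    have h4 : s ≠ z := by
      rintro rfl
      exact (List.nodup_cons.1 (List.nodup_cons.1 hn2).2).1 hs
    exact swap_apply_of_ne_of_ne h3 h4
  rw [h2] at h1
  rw [h1, swap_inv, mul_assoc, mul_assoc, swap_mul_self, mul_one]

/-- the cyclic permutation of a word with cargo. -/
theorem formPerm_ww (a : List Ω) : ∀ L : List (Ω × Ω), (ww L a).Nodup → (∀ q ∈ L, q.1 ∈ a) →
    List.formPerm (ww L a) = List.formPerm a * cL L := by
  intro L
  induction L with
  | nil => intro _ _; rw [ww_nil, cL_nil, mul_one]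
  | cons q L ih =>
    obtain ⟨t, z⟩ := q
    intro hn hg
    have ht : t ∈ a := hg (t, z) List.mem_cons_self
    obtain ⟨a1, a2, rfl⟩ := List.append_of_mem ht
    have hna : (a1 ++ t :: a2).Nodup := hn.sublist (sublist_ww _ _)
    have h1 : t ∉ a1 := by
      intro h
      exact (List.nodup_append.1 hna).2.2 t h t List.mem_cons_self rfl
    have h2 : t ∉ a2 := (List.nodup_cons.1 (List.nodup_append.1 hna).2.1).1
    have e1 : ww ((t, z) :: L) (a1 ++ t :: a2) = ww L a1 ++ t :: z :: (tl L t ++ ww L a2) := by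
      rw [ww_append, ww_cons, ww_cons_notMem h1, ww_cons_notMem h2, tl_cons_self]
      rfl
    have e2 : ww L (a1 ++ t :: a2) = ww L a1 ++ t :: (tl L t ++ ww L a2) := by
      rw [ww_append, ww_cons]
    have ih' := ih (hn.sublist (ww_cons_sublist t z L _)) (fun q hq => hg q (List.mem_cons_of_mem _ hq))
    rw [e1] at hn ⊢
    rw [formPerm_insert_after t z _ _ hn, ← e2, ih', cL_cons, mul_assoc]

/-- what the product of the transpositions does not move. -/
theorem cL_apply_of_notMem {L : List (Ω × Ω)} {t : Ω} (h : ∀ q ∈ L, q.1 ≠ t ∧ q.2 ≠ t) : cL L t = t := by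
  induction L with
  | nil => rfl
  | cons q L ih =>
    obtain ⟨g, z⟩ := q
    have h1 := h (g, z) List.mem_cons_self
    rw [cL_cons, Perm.mul_apply, swap_apply_of_ne_of_ne h1.1.symm h1.2.symm]
    exact ih (fun q hq => h q (List.mem_cons_of_mem _ hq))

/-- the last token. -/
theorem getLast?_ww {L : List (Ω × Ω)} {a : List Ω} {ℓ : Ω} (h : (ww L a).getLast? = some ℓ) :
    ∃ t, a.getLast? = some t ∧ ((t = ℓ ∧ tl L t = []) ∨ (t, ℓ) ∈ L) := by
  rcases List.eq_nil_or_concat' a with rfl | ⟨a', t, rfl⟩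
  · simp [ww_nil'] at h
  · refine ⟨t, by simp, ?_⟩
    rw [ww_append] at h
    have e : ww L [t] = t :: tl L t := by
      rw [ww_cons, ww_nil', List.append_nil]
    rw [e, List.getLast?_append_cons] at h
    cases htl : tl L t with
    | nil =>
      rw [htl] at h
      left
      simp at h
      exact ⟨h, rfl⟩
    | cons z l =>
      rw [htl, List.getLast?_cons_cons] at h
      right
      have := List.mem_of_getLast? h
      rw [← htl] at this
      exact mem_tl.1 this

/-! ## Decoded states -/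

/-- `(ww L₁ a, ww L₂ b)`: the skeleton `a`, `b` are the mixed tokens, the cargo is coloured. -/
structure Dc (p : Ω → Ω) (L₁ L₂ : List (Ω × Ω)) (a b : List Ω) : Prop where
  wf : WF p (ww L₁ a, ww L₂ b)
  g1 : ∀ q ∈ L₁, q.1 ∈ a
  g2 : ∀ q ∈ L₂, q.1 ∈ b
  c1 : ∀ q ∈ L₁, p q.2 ∈ L₁.map Prod.snd
  c2 : ∀ q ∈ L₂, p q.2 ∈ L₂.map Prod.snd
  m1 : ∀ t ∈ a, p t ∈ b
  m2 : ∀ t ∈ b, p t ∈ a
  ne : a ≠ []

namespace Dc

variable {L₁ L₂ : List (Ω × Ω)} {a b : List Ω}

theorem mir (h : Dc p L₁ L₂ a b) : Dc p L₂ L₁ b a := by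
  refine ⟨h.wf.mir, h.g2, h.g1, h.c2, h.c1, h.m2, h.m1, ?_⟩
  rintro rfl
  obtain ⟨x, hx⟩ := List.exists_mem_of_ne_nil a h.ne
  exact absurd (h.m1 x hx) List.not_mem_nil

theorem nd1 (h : Dc p L₁ L₂ a b) : (ww L₁ a).Nodup := (List.nodup_append.1 h.wf.nd).1
theorem nd2 (h : Dc p L₁ L₂ a b) : (ww L₂ b).Nodup := (List.nodup_append.1 h.wf.nd).2.1
theorem dj (h : Dc p L₁ L₂ a b) {t : Ω} (h1 : t ∈ ww L₁ a) (h2 : t ∈ ww L₂ b) : False :=
  (List.nodup_append.1 h.wf.nd).2.2 t h1 t h2 rfl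

theorem mem1 (h : Dc p L₁ L₂ a b) {t : Ω} : t ∈ ww L₁ a ↔ t ∈ a ∨ t ∈ L₁.map Prod.snd := by
  rw [mem_ww]
  constructor
  · rintro (h1 | ⟨g, -, h1⟩)
    · exact Or.inl h1
    · exact Or.inr (List.mem_map_of_mem (f := Prod.snd) h1)
  · rintro (h1 | h1)
    · exact Or.inl h1
    · obtain ⟨⟨g, z⟩, h2, rfl⟩ := List.mem_map.1 h1
      exact Or.inr ⟨g, h.g1 _ h2, h2⟩

theorem mem2 (h : Dc p L₁ L₂ a b) {t : Ω} : t ∈ ww L₂ b ↔ t ∈ b ∨ t ∈ L₂.map Prod.snd := h.mir.mem1

theorem col1 (h : Dc p L₁ L₂ a b) {t : Ω} (ht : t ∈ L₁.map Prod.snd) : p t ∈ L₁.map Prod.snd := by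
  obtain ⟨q, h1, rfl⟩ := List.mem_map.1 ht
  exact h.c1 q h1

/-- a coloured token is not in the skeleton. -/
theorem notMem1 (h : Dc p L₁ L₂ a b) {t : Ω} (ht : t ∈ L₁.map Prod.snd) : t ∉ a := by
  intro h1
  exact h.dj (h.mem1.2 (Or.inr (h.col1 ht))) (h.mem2.2 (Or.inl (h.m1 t h1)))

theorem notMem1' (h : Dc p L₁ L₂ a b) {t : Ω} (ht : t ∈ L₁.map Prod.snd) : t ∉ b := by
  intro h1
  exact h.dj (h.mem1.2 (Or.inr ht)) (h.mem2.2 (Or.inl h1))

end Dc

end NTH
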