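import Pool.Agent.helper36.WE.Hub
import Pool.Agent.helper14.NTA.Words

/-!
# MP_c8d30a: few normal forms in a class (from the proof of `cls_bound` of helper36)
-/

set_option autoImplicit false

namespace Pool.Agent.helper36.WE

open Equiv Equiv.Perm List

variable {X : Type} [DecidableEq X]

/-- at most `(D.card + 1) ^ 2` normal forms. -/
theorem cls_hub (D : Finset X) (e q : X) (ρ : Perm X) :
    ∃ H : Set (List X × List X), H.Finite ∧ H.ncard ≤ (D.card + 1) ^ 2 ∧
      ∀ v : List X × List X, Cls D e q ρ v.1 v.2 → ∃ h ∈ H, ∃ n, Walk Sup n v h := by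
  set T := D.erase e with hT
  set ρ' := ρ * Equiv.swap e q with hρ'
  obtain ⟨N, hN, hNc, hNw⟩ := normal_form T.card T ρ' rfl
  let Q : List X × List X → Perm X → Prop := fun v σ =>
    ∃ A B, v = (e :: A, B ++ [e]) ∧ St T ρ' A B ∧
      ((A = [] ∧ B = []) ∨ (A.getLast? = some q ∧ B.getLast? = some q)) ∧ σ = formPerm A
  let H : Set (List X × List X) := {v | ∃ σ ∈ N, Q v σ}
  obtain ⟨hH, hHc⟩ := ncard_le_of_rel H N hN Q (fun v hv => hv) (by
    rintro v v' σ ⟨A, B, rfl, h1, h2, h3⟩ ⟨A', B', rfl, h1', h2', h3'⟩
    have hTe : ∀ (l : List X), l.toFinset = T → l = [] → T = ∅ := by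
      rintro l h rfl; rw [← h]; rfl
    have hnil : ∀ (l : List X), l.toFinset = T → T = ∅ → l = [] := by
      intro l h h'
      exact (List.toFinset_eq_empty_iff l).mp (h.trans h')
    have hTB : ∀ {A B}, St T ρ' A B → B.toFinset = T := by
      intro A B h
      rw [← h.supp]; exact (List.toFinset_eq_of_perm _ _ h.perm).symm
    rcases h2 with ⟨rfl, rfl⟩ | ⟨h4, h5⟩
    · have h6 := hTe _ h1.supp rfl
      rw [hnil A' h1'.supp h6, hnil B' (hTB h1') h6]
    · have hA' : A'.getLast? = some q := by
        rcases h2' with ⟨h6, -⟩ | ⟨h6, -⟩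
        · have := hnil A h1.supp (hTe A' h1'.supp h6)
          rw [this] at h4
          simp at h4
        · exact h6
      have hB' : B'.getLast? = some q := by
        rcases h2' with ⟨h6, -⟩ | ⟨-, h6⟩
        · have := hnil A h1.supp (hTe A' h1'.supp h6)
          rw [this] at h4
          simp at h4
        · exact h6
      have hAA : A = A' := eq_of_formPerm (h3.symm.trans h3') h1.nodup h1'.nodup h4 hA'
      have hBB : B = B' := by
        refine eq_of_formPerm ?_ h1.nodupB h1'.nodupB h5 hB'
        have e1 := h1.rho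
        rw [← h1'.rho, hAA] at e1
        exact inv_injective (mul_right_cancel e1)
      rw [hAA, hBB])
  refine ⟨H, hH, (hHc.trans hNc).trans (Nat.pow_le_pow_left (Nat.add_le_add_right (Finset.card_le_card (Finset.erase_subset _ _)) 1) 2), ?_⟩
  · intro v hc
    obtain ⟨a, b⟩ := v
    simp only at hc
    have heD : e ∈ D := by
      rw [← hc.supp, List.mem_toFinset]
      exact hc.perm.symm.subset (List.mem_of_getLast? hc.lastB)
    have hTD : D.card = T.card + 1 := by
      rw [hT, Finset.card_erase_of_mem heD]
      have := Finset.card_pos.mpr ⟨e, heD⟩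
      omega
    cases a with
    | nil => have := hc.lastA; simp at this
    | cons x A =>
        have hx : x ∈ b := hc.perm.subset (by simp)
        obtain ⟨V, b3, rfl⟩ := List.append_of_mem hx
        have hlen : b3.length ≤ T.card + 1 := by
          have h1 := List.toFinset_card_of_nodup hc.nodup
          have h2 := hc.perm.length_eq
          rw [hc.supp, hTD] at h1
          simp only [List.length_append, List.length_cons] at h1 h2
          omega
        obtain ⟨n1, hn1, A', B', hw1⟩ := standardize (T.card + 1) x A V b3 hc hlen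
        have hc' := hc.walk (s := (x :: A, V ++ x :: b3)) hw1
        simp only at hc'
        obtain ⟨hst, hcase⟩ := hc'.st
        obtain ⟨n2, hn2, a2, b2, hw2, hfin⟩ := hNw _ _ hst
        have hst2 := hst.walk hw2
        rcases hcase with ⟨rfl, rfl⟩ | ⟨hqA, hqB⟩
        · -- no letters
          have hTe : T = ∅ := by rw [hT, ← hst.supp]; rfl
          have ha2 : a2 = [] := (List.toFinset_eq_empty_iff a2).mp (hst2.supp.trans hTe)
          rw [ha2] at hfin
          refine ⟨([e], [] ++ [e]), ⟨_, hfin, [], [], rfl, hst, Or.inl ⟨rfl, rfl⟩, rfl⟩, n1, hw1⟩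
        · have hqa2 : q ∈ a2 := by
            rw [← List.mem_toFinset, hst2.supp, ← hst.supp, List.mem_toFinset]
            exact List.mem_of_getLast? hqA
          have hqb2 : q ∈ b2 := hst2.perm.subset hqa2
          obtain ⟨a3, ha3⟩ := exists_rot_last hqa2
          obtain ⟨b3', hb3⟩ := exists_rot_last hqb2
          have hw3 := lift_walk (e := e) n2 hw2 hst.nodup hqA ha3 hb3 List.getLast?_concat
          have hst3 : St T ρ' (a3 ++ [q]) (b3' ++ [q]) := hst2.rot ha3.symm hb3.symm
          refine ⟨(e :: (a3 ++ [q]), (b3' ++ [q]) ++ [e]), ⟨_, hfin, a3 ++ [q], b3' ++ [q], rfl,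
            hst3, Or.inr ⟨List.getLast?_concat, List.getLast?_concat⟩, ?_⟩, n1 + (5 * n2 + 1),
            hw1.append hw3⟩
          exact (formPerm_eq_of_isRotated hst3.nodup ha3).symm

end Pool.Agent.helper36.WE
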