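import Pool.Agent.helper14.NTA.Key

/-!
# MP_c8d30a: few representatives for the states with little cargo
-/

set_option autoImplicit false

namespace NTH

open Equiv
open Pool.Agent.helper36.WE (rho Cls Sup SupL Walk cls_hub)

/-- lists of length at most `K`. -/
abbrev Lb (α : Type) (K : ℕ) : Type := Σ i : Fin (K + 1), (Fin i → α)

/-- the list of a label. -/
def lbl {α : Type} {K : ℕ} (l : Lb α K) : List α := List.ofFn l.2

theorem lbl_surj {α : Type} {K : ℕ} (L : List α) (h : L.length ≤ K) : ∃ l : Lb α K, lbl l = L :=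
  ⟨⟨⟨L.length, by omega⟩, L.get⟩, List.ofFn_get L⟩

theorem lbl_card {α : Type} [Fintype α] (hc : 1 ≤ Fintype.card α) (K : ℕ) :
    Fintype.card (Lb α K) ≤ (K + 1) * Fintype.card α ^ K := by
  rw [Fintype.card_sigma]
  have h1 : ∀ i ∈ (Finset.univ : Finset (Fin (K + 1))), Fintype.card (Fin (i : ℕ) → α) ≤ Fintype.card α ^ K := by
    intro i _
    rw [Fintype.card_fun, Fintype.card_fin]
    exact Nat.pow_le_pow_right hc (by omega)
  refine (Finset.sum_le_card_nsmul _ _ _ h1).trans ?_
  rw [Finset.card_univ, Fintype.card_fin, smul_eq_mul]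

/-- a finite set is the image of `Fin M`. -/
theorem exists_enum {α : Type} [Inhabited α] (H : Set α) (hf : H.Finite) {M : ℕ} (hM : H.ncard ≤ M) :
    ∃ en : Fin M → α, ∀ x ∈ H, ∃ k, en k = x := by
  classical
  have hc : hf.toFinset.card ≤ M := by
    rw [← Set.ncard_eq_toFinset_card H hf]
    exact hM
  refine ⟨fun k => if hk : (k : ℕ) < hf.toFinset.card then (hf.toFinset.equivFin.symm ⟨k, hk⟩).1 else default, ?_⟩
  intro x hx
  have hx' : x ∈ hf.toFinset := by rwa [Set.Finite.mem_toFinset]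
  have h1 := (hf.toFinset.equivFin ⟨x, hx'⟩).2
  refine ⟨⟨(hf.toFinset.equivFin ⟨x, hx'⟩).1, h1.trans_le hc⟩, ?_⟩
  simp

variable {Ω : Type} [DecidableEq Ω] {p : Ω → Ω}

theorem RT.rel {g : Ω → Ω} (hg : ∀ t, g (p t) = p (g t)) {a : ℕ} {s t : St Ω} (h : RT p a s t) : RT p a (rel g s) (rel g t) :=
  ⟨h.1.rel hg, h.2.rel hg⟩

/-- representatives for one cargo. -/
theorem reps_one [Fintype Ω] {s₀ : St Ω} {h : ∀ t, p (p t) = t} (hx₀ : XS p h s₀ s₀) (hall : ∀ t, t ∈ s₀.1 ++ s₀.2) (L₁ L₂ : List (Ω × Ω)) :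
    ∃ en : Fin ((Fintype.card Ω + 1) ^ 2) → List Ω × List Ω, ∀ (e : Ω) (a b : List Ω), Sd p e L₁ L₂ a b →
      XS p h s₀ (ww L₁ a, ww L₂ b) → ∃ (k : Fin ((Fintype.card Ω + 1) ^ 2)) (φ : Ω → ZMod 2), φ ∈ VS p h s₀ ∧
        XS p h s₀ (tk p L₁ L₂ (en k)) ∧ RT p 0 (ww L₁ a, ww L₂ b) (rel (act (h := h) hx₀.wf φ) (tk p L₁ L₂ (en k))) := by
  by_cases H : ∃ (e : Ω) (a b : List Ω), Sd p e L₁ L₂ a b ∧ XS p h s₀ (ww L₁ a, ww L₂ b)
  · obtain ⟨e, a', b', hs', hx'⟩ := H
    obtain ⟨e₁, he₁⟩ : ∃ e₁, b'.getLast? = some e₁ := by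
      rw [List.getLast?_eq_getLast_of_ne_nil hs'.dc.neb]
      exact ⟨_, rfl⟩
    obtain ⟨H, hfin, hcard, hH⟩ := cls_hub a'.toFinset (p e₁) (p e) (rho a' (b'.map p))
    have hM : H.ncard ≤ (Fintype.card Ω + 1) ^ 2 :=
      hcard.trans (Nat.pow_le_pow_left (Nat.add_le_add_right (Finset.card_le_univ _) 1) 2)
    obtain ⟨en, hen⟩ := exists_enum H hfin hM
    refine ⟨en, ?_⟩
    intro e2 a b hs hx
    have hee : e2 = e := by
      have h1 : some (p e2) = some (p e) := by
        rw [← hs.hl, ← hs'.hl]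
        exact hx.l1.trans hx'.l1.symm
      have h2 := Option.some.inj h1
      rw [← h e2, h2, h]
    subst hee
    obtain ⟨φ, hV, hrel, hdg, hm⟩ := key hx₀ hall hs.dc hs'.dc hx hx'
    set g : Ω → Ω := act (h := h) hx₀.wf φ with hg
    have hgp : ∀ t, g (p t) = p (g t) := act_p hx₀.wf hV
    have hgg : ∀ t, g (g t) = t := act_act hx₀.wf hV
    have hpe : φ (p e2) = 0 := hV.2.2 _ (Or.inl (by rw [← hx.l1]; exact hs.hl))
    have he : φ e2 = 0 := by rw [← hV.1]; exact hpe
    have hge : g e2 = e2 := by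
      rw [hg]
      unfold act
      exact if_pos he
    have hgpe : g (p e2) = p e2 := by rw [hgp, hge]
    have hxg : XS p h s₀ (ww L₁ (a.map g), ww L₂ (b.map g)) := by
      rw [← hrel]
      exact hx.act hx₀.wf hall hV
    have hsg : Sd p e2 L₁ L₂ (a.map g) (b.map g) := by
      refine ⟨hdg, ?_, ?_, ?_⟩
      · rw [List.head?_map, hs.hb, Option.map_some, hge]
      · rw [List.getLast?_map, hs.ha, Option.map_some, hgpe]
      · have h1 : ww L₁ (a.map g) = (ww L₁ a).map g := by
          have := congrArg Prod.fst hrel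
          exact this.symm
        rw [h1, List.getLast?_map, hs.hl, Option.map_some, hgpe]
    have hcls := cls_same hsg hs' hxg hx' hm e₁ he₁
    obtain ⟨hh, hhH, n, hw⟩ := hH (a.map g, (b.map g).map p) hcls
    have e1 : tk p L₁ L₂ (a.map g, (b.map g).map p) = (ww L₁ (a.map g), ww L₂ (b.map g)) := by
      have : (((b.map g).map p).map p) = b.map g := by
        rw [List.map_map]
        conv_rhs => rw [← List.map_id (b.map g)]
        apply List.map_congr_left
        intro t _
        exact h t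
      simp only [tk, this]
    have hrt := walk_rt h (L₁ := L₁) (L₂ := L₂) n hw (by rw [e1]; exact hxg.n)
    rw [e1] at hrt
    obtain ⟨k, hk⟩ := hen hh hhH
    refine ⟨k, φ, hV, ?_, ?_⟩
    · rw [hk]
      exact hxg.reach hrt.1
    · rw [hk]
      have h2 := hrt.rel hgp
      rw [← hrel, rel_rel, rel_id _ hgg] at h2
      exact h2
  · exact ⟨fun _ => ([], []), fun e a b hs hx => absurd ⟨e, a, b, hs, hx⟩ H⟩

/-- the label type of the states with cargo at most `K` on each side. -/
abbrev LbT (Ω : Type) [Fintype Ω] (K : ℕ) : Type := Lb (Ω × Ω) K × Lb (Ω × Ω) K × Fin ((Fintype.card Ω + 1) ^ 2)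

theorem reps_all [Fintype Ω] {s₀ : St Ω} {h : ∀ t, p (p t) = t} (hx₀ : XS p h s₀ s₀) (hall : ∀ t, t ∈ s₀.1 ++ s₀.2) (K : ℕ) :
    ∃ rep : LbT Ω K → St Ω, ∀ (e : Ω) (L₁ L₂ : List (Ω × Ω)) (a b : List Ω), Sd p e L₁ L₂ a b → L₁.length ≤ K → L₂.length ≤ K →
      XS p h s₀ (ww L₁ a, ww L₂ b) → ∃ (k : LbT Ω K) (φ : Ω → ZMod 2), φ ∈ VS p h s₀ ∧
        XS p h s₀ (rep k) ∧ RT p 0 (ww L₁ a, ww L₂ b) (rel (act (h := h) hx₀.wf φ) (rep k)) := by
  choose en hen using reps_one (h := h) hx₀ hall
  refine ⟨fun k => tk p (lbl k.1) (lbl k.2.1) (en (lbl k.1) (lbl k.2.1) k.2.2), ?_⟩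
  intro e L₁ L₂ a b hs h1 h2 hx
  obtain ⟨l1, hl1⟩ := lbl_surj L₁ h1
  obtain ⟨l2, hl2⟩ := lbl_surj L₂ h2
  obtain ⟨k, φ, h3, h4, h5⟩ := hen L₁ L₂ e a b hs hx
  refine ⟨(l1, l2, k), φ, h3, ?_, ?_⟩
  · simp only [hl1, hl2]
    exact h4
  · simp only [hl1, hl2]
    exact h5

/-! ## Decoding -/

theorem tl_append (L L' : List (Ω × Ω)) (t : Ω) : tl (L ++ L') t = tl L t ++ tl L' t := by
  simp [tl]

theorem decode (mx : Ω → Prop) (x : Ω) (hx : mx x) : ∀ U : List Ω, (x :: U).Nodup →
    ∃ (L : List (Ω × Ω)) (a : List Ω), x :: U = ww L (x :: a) ∧ (∀ q ∈ L, q.1 ∈ x :: a) ∧ (∀ t ∈ x :: a, mx t) ∧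
      (∀ t ∈ L.map Prod.snd, ¬ mx t) ∧ L.length ≤ U.length ∧ ∀ l : List Ω, (∀ t ∈ L.map Prod.snd, t ∈ l) → L.length ≤ l.length := by
  classical
  intro U
  induction U using List.reverseRecOn with
  | nil =>
    intro _
    refine ⟨[], [], ?_, by simp, ?_, by simp, by simp, by simp⟩
    · rw [ww_nil]
    · intro t ht
      rw [List.mem_singleton] at ht
      rw [ht]; exact hx
  | append_singleton U t ih =>
    intro hn
    have hn' : (x :: U).Nodup := hn.sublist (by simp)
    have htn : t ∉ x :: U := by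
      intro h1
      have h2 : (x :: U ++ [t]).Nodup := hn
      exact (List.nodup_append.1 h2).2.2 t h1 t (List.mem_singleton_self t) rfl
    obtain ⟨L, a, h1, h2, h3, h4, h5, h6⟩ := ih hn'
    have hta : t ∉ x :: a := fun h7 => htn (h1 ▸ (mem_ww.2 (Or.inl h7)))
    have hinj : (L.map Prod.snd).Nodup → ∀ l : List Ω, (∀ s ∈ L.map Prod.snd, s ∈ l) → L.length ≤ l.length := fun _ => h6
    by_cases hm : mx t
    · refine ⟨L, a ++ [t], ?_, ?_, ?_, h4, ?_, h6⟩
      · have e1 : x :: (a ++ [t]) = (x :: a) ++ [t] := rfl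
        rw [e1, ww_append, ← h1]
        have e2 : tl L t = [] := by
          rw [List.eq_nil_iff_forall_not_mem]
          intro z hz
          exact hta (h2 _ (mem_tl.1 hz))
        rw [ww_cons, ww_nil', e2]
        rfl
      · intro q hq
        have := h2 q hq
        exact List.mem_append_left [t] this
      · intro s hs
        have e1 : s ∈ (x :: a) ++ [t] := hs
        rcases List.mem_append.1 e1 with h7 | h7
        · exact h3 s h7
        · rw [List.mem_singleton.1 h7]; exact hm
      · rw [List.length_append]; omega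
    · -- the ground
      obtain ⟨a0, g, hag⟩ : ∃ a0 g, x :: a = a0 ++ [g] := by
        rcases List.eq_nil_or_concat' (x :: a) with h0 | ⟨a0, g, h0⟩
        · exact absurd h0 (List.cons_ne_nil _ _)
        · exact ⟨a0, g, h0⟩
      have hna : (x :: a).Nodup := by
        have h7 : (ww L (x :: a)).Nodup := h1 ▸ hn'
        exact h7.sublist (sublist_ww _ _)
      have hga0 : g ∉ a0 := by
        rw [hag] at hna
        intro h7
        exact (List.nodup_append.1 hna).2.2 g h7 g (List.mem_singleton_self g) rfl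
      have htL : t ∉ L.map Prod.snd := by
        intro h7
        obtain ⟨q, hq, h8⟩ := List.mem_map.1 h7
        apply htn
        rw [h1]
        exact mem_ww.2 (Or.inr ⟨q.1, h2 q hq, by rw [← h8]; exact hq⟩)
      refine ⟨L ++ [(g, t)], a, ?_, ?_, h3, ?_, ?_, ?_⟩
      · have e0 : ww (L ++ [(g, t)]) a0 = ww L a0 := by
          apply ww_congr
          intro s hs
          rw [tl_append]
          have : tl [(g, t)] s = [] := by
            rw [tl_cons_ne]
            · rfl
            · rintro rfl; exact hga0 hs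
          rw [this, List.append_nil]
        have e1 : ww (L ++ [(g, t)]) (x :: a) = ww L (x :: a) ++ [t] := by
          rw [hag, ww_append, ww_append, e0, ww_cons, ww_cons, ww_nil', ww_nil', tl_append, tl_cons_self, tl_nil]
          simp
        rw [e1, ← h1]
        rfl
      · intro q hq
        rcases List.mem_append.1 hq with h7 | h7
        · exact h2 q h7
        · rw [List.mem_singleton.1 h7, hag]
          simp
      · intro s hs
        rw [List.map_append, List.mem_append] at hs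
        rcases hs with h7 | h7
        · exact h4 s h7
        · simp only [List.map_cons, List.map_nil, List.mem_singleton] at h7
          rw [h7]; exact hm
      · simp only [List.length_append, List.length_singleton]
        omega
      · intro l hl
        have h7 : t ∈ l := hl t (by simp)
        have h8 := h6 (l.erase t) (by
          intro s hs
          have h9 : s ≠ t := by
            rintro rfl
            exact htL hs
          exact (List.mem_erase_of_ne h9).2 (hl s (by
            rw [List.map_append]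
            exact List.mem_append_left _ hs)))
        rw [List.length_erase_of_mem h7] at h8
        have h10 := List.length_pos_of_mem h7
        simp only [List.length_append, List.length_singleton]
        omega

end NTH
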