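import Pool.Agent.helper14.NTA.Spec

/-!
# MP_c8d30a: length drops
-/

set_option autoImplicit false

namespace NTH

open Pool.Agent.helper36.WE

theorem FDrop : FD_stmt := by
  intro K hK hlev X A _ _ E E' hq hr
  classical
  obtain ⟨n, hn, hw⟩ := shorten (X := X) (A := A) (fun s => Quadratic s ∧ size s ≤ size E) (fun s s' => size s' = size s) size
    (K (size E) + 1)
    (fun s s' hs hst => ⟨quadratic_step hs.1 hst, (size_le hs.1 hst).trans hs.2⟩)
    (fun s s' hs hst => size_le hs.1 hst)
    (fun s s' hs hst hne => lt_of_le_of_ne (size_le hs.1 hst) hne)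
    (fun s s' hs hst => by
      have h1 : Pool.Agent.helper36.WE.Reach s s' ∧ size s' = size s := by
        induction hst with
        | refl => exact ⟨Relation.ReflTransGen.refl, rfl⟩
        | tail _ hbc ih => exact ⟨ih.1.tail hbc.1, hbc.2.trans ih.2⟩
      obtain ⟨n, hn, f, hf⟩ := hlev X A s s' hs.1 h1.1 h1.2
      exact ⟨n, Nat.lt_succ_of_le (hn.trans (hK hs.2)), f, hf⟩)
    (size E) E E' ⟨hq, le_rfl⟩ le_rfl hr
  exact ⟨n, hn.le, hw⟩

end NTH
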