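import Pool.Agent.helper14.NTA.Low

/-!
# MP_c8d30a: two states with the same cargo: one is relabelled so that the sides are equal; then the skeletons are in the same class
-/

set_option autoImplicit false

namespace NTH

open Equiv
open Pool.Agent.helper36.WE (rho Cls Sup SupL Walk)

variable {Ω : Type} [DecidableEq Ω] {p : Ω → Ω}

theorem zmod_two : (1 : ZMod 2) + 1 = 0 := by decide

theorem ww_map {g : Ω → Ω} (hi : Function.Injective g) {L : List (Ω × Ω)} (hL : ∀ q ∈ L, g q.1 = q.1 ∧ g q.2 = q.2) (a : List Ω) :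
    (ww L a).map g = ww L (a.map g) := by
  induction a with
  | nil => rfl
  | cons x a ih =>
    rw [ww_cons, List.map_cons, List.map_append, ih, List.map_cons, ww_cons]
    congr 2
    have h1 : (tl L x).map g = tl L x := by
      conv_rhs => rw [← List.map_id (tl L x)]
      apply List.map_congr_left
      intro z hz
      exact (hL _ (mem_tl.1 hz)).2
    rw [h1]
    by_cases hx : g x = x
    · rw [hx]
    · have h2 : tl L x = [] := by
        rw [List.eq_nil_iff_forall_not_mem]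
        intro z hz
        exact hx (hL _ (mem_tl.1 hz)).1
      have h3 : tl L (g x) = [] := by
        rw [List.eq_nil_iff_forall_not_mem]
        intro z hz
        exact hx (hi (hL _ (mem_tl.1 hz)).1)
      rw [h2, h3]

namespace Dc

variable {L₁ L₂ : List (Ω × Ω)} {a b a' b' : List Ω} {h : ∀ t, p (p t) = t}

theorem mixed_iff (hd : Dc p L₁ L₂ a b) (hall : ∀ t, t ∈ ww L₁ a ∨ t ∈ ww L₂ b) (t : Ω) :
    (t ∈ a ∨ t ∈ b) ↔ ¬ (t ∈ L₁.map Prod.snd ∨ t ∈ L₂.map Prod.snd) := by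
  constructor
  · rintro h1 (h2 | h2)
    · rcases h1 with h1 | h1
      · exact hd.notMem1 h2 h1
      · exact hd.notMem1' h2 h1
    · rcases h1 with h1 | h1
      · exact hd.mir.notMem1' h2 h1
      · exact hd.mir.notMem1 h2 h1
  · intro h1
    rcases hall t with h2 | h2
    · rcases hd.mem1.1 h2 with h3 | h3
      · exact Or.inl h3
      · exact absurd (Or.inl h3) h1
    · rcases hd.mem2.1 h2 with h3 | h3
      · exact Or.inr h3
      · exact absurd (Or.inr h3) h1

end Dc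

/-- THE RELABELLING. -/
theorem key {s₀ : St Ω} {h : ∀ t, p (p t) = t} (hx₀ : XS p h s₀ s₀) (hall : ∀ t, t ∈ s₀.1 ++ s₀.2)
    {L₁ L₂ : List (Ω × Ω)} {a b a' b' : List Ω} (hd : Dc p L₁ L₂ a b) (hd' : Dc p L₁ L₂ a' b')
    (hx : XS p h s₀ (ww L₁ a, ww L₂ b)) (hx' : XS p h s₀ (ww L₁ a', ww L₂ b')) :
    ∃ φ : Ω → ZMod 2, φ ∈ VS p h s₀ ∧
      rel (act (h := h) hx₀.wf φ) (ww L₁ a, ww L₂ b) = (ww L₁ (a.map (act (h := h) hx₀.wf φ)), ww L₂ (b.map (act (h := h) hx₀.wf φ))) ∧
      Dc p L₁ L₂ (a.map (act (h := h) hx₀.wf φ)) (b.map (act (h := h) hx₀.wf φ)) ∧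
      (∀ t, t ∈ a.map (act (h := h) hx₀.wf φ) ↔ t ∈ a') := by
  have hall1 : ∀ t, t ∈ ww L₁ a ∨ t ∈ ww L₂ b := fun t => List.mem_append.1 (hx.perm.mem_iff.2 (hall t))
  have hall2 : ∀ t, t ∈ ww L₁ a' ∨ t ∈ ww L₂ b' := fun t => List.mem_append.1 (hx'.perm.mem_iff.2 (hall t))
  set s : St Ω := (ww L₁ a, ww L₂ b) with hs
  set s' : St Ω := (ww L₁ a', ww L₂ b') with hs'
  have hmix := hd.mixed_iff hall1
  have hmix' := hd'.mixed_iff hall2
  set C : Perm Ω := cL L₁ * cL L₂ with hC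
  let φ : Ω → ZMod 2 := fun t => sd s t + sd s' t
  have hφ : ∀ t, φ t = sd s t + sd s' t := fun t => rfl
  -- the fixed tokens
  have f1 : ∀ t, t ∈ ww L₁ a → t ∈ ww L₁ a' → φ t = 0 := by
    intro t h1 h2
    simp [φ, sd, hs, hs', h1, h2]
  have f2 : ∀ t, t ∈ ww L₂ b → t ∈ ww L₂ b' → φ t = 0 := by
    intro t h1 h2
    have h3 : t ∉ ww L₁ a := fun h3 => hd.dj h3 h1
    have h4 : t ∉ ww L₁ a' := fun h4 => hd'.dj h4 h2
    simp only [φ, sd, hs, hs', if_neg h3, if_neg h4]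
    exact zmod_two
  have g1 : ∀ q ∈ L₁, φ q.1 = 0 ∧ φ q.2 = 0 := fun q hq =>
    ⟨f1 _ (hd.mem1.2 (Or.inl (hd.g1 q hq))) (hd'.mem1.2 (Or.inl (hd'.g1 q hq))),
     f1 _ (hd.mem1.2 (Or.inr (List.mem_map_of_mem (f := Prod.snd) hq))) (hd'.mem1.2 (Or.inr (List.mem_map_of_mem (f := Prod.snd) hq)))⟩
  have g2 : ∀ q ∈ L₂, φ q.1 = 0 ∧ φ q.2 = 0 := fun q hq =>
    ⟨f2 _ (hd.mem2.2 (Or.inl (hd.g2 q hq))) (hd'.mem2.2 (Or.inl (hd'.g2 q hq))),
     f2 _ (hd.mem2.2 (Or.inr (List.mem_map_of_mem (f := Prod.snd) hq))) (hd'.mem2.2 (Or.inr (List.mem_map_of_mem (f := Prod.snd) hq)))⟩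
  have hp1 : ∀ t, φ (p t) = φ t := by
    intro t
    by_cases hc : t ∈ L₁.map Prod.snd ∨ t ∈ L₂.map Prod.snd
    · rw [hφ, hφ, hd.sd_p_col hc, hd'.sd_p_col hc]
    · rw [hφ, hφ, hd.sd_p_mixed ((hmix t).2 hc), hd'.sd_p_mixed ((hmix' t).2 hc)]
      linear_combination zmod_two
  have hp2 : ∀ t, φ (mu p h s₀ t) = φ t := by
    intro t
    have e1 : sd s (mu p h s₀ t) = sd s (mu p h s t) := by rw [hx.mu]
    have e2 : sd s' (mu p h s₀ t) = sd s' (mu p h s' t) := by rw [hx'.mu]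
    rw [hφ, hφ, e1, e2]
    by_cases hc : C t ∈ L₁.map Prod.snd ∨ C t ∈ L₂.map Prod.snd
    · have h1 := mt (hmix (C t)).1 (not_not.2 hc)
      have h2 := mt (hmix' (C t)).1 (not_not.2 hc)
      rw [not_or] at h1 h2
      rw [hd.sd_mu_col hall1 t h1.1 h1.2, hd'.sd_mu_col hall2 t h2.1 h2.2]
    · rw [hd.sd_mu_mixed t ((hmix (C t)).2 hc), hd'.sd_mu_mixed t ((hmix' (C t)).2 hc)]
      linear_combination zmod_two
  have hV : φ ∈ VS p h s₀ := by
    refine ⟨hp1, hp2, ?_⟩
    rintro t (ht | ht)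
    · apply f1
      · have := hx.l1.trans ht
        exact List.mem_of_getLast? this
      · have := hx'.l1.trans ht
        exact List.mem_of_getLast? this
    · apply f2
      · have := hx.l2.trans ht
        exact List.mem_of_getLast? this
      · have := hx'.l2.trans ht
        exact List.mem_of_getLast? this
  set g : Ω → Ω := act (h := h) hx₀.wf φ with hg
  have hgi : Function.Injective g := (actP (h := h) hx₀.wf hV).injective
  have hgg : ∀ t, g (g t) = t := act_act hx₀.wf hV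
  have hg0 : ∀ t, φ t = 0 → g t = t := by
    intro t ht
    rw [hg]
    unfold act
    exact if_pos ht
  have hgp : ∀ t, g (p t) = p (g t) := act_p hx₀.wf hV
  have hrel : rel g s = (ww L₁ (a.map g), ww L₂ (b.map g)) := by
    rw [hs, rel]
    rw [ww_map hgi (fun q hq => ⟨hg0 _ (g1 q hq).1, hg0 _ (g1 q hq).2⟩), ww_map hgi (fun q hq => ⟨hg0 _ (g2 q hq).1, hg0 _ (g2 q hq).2⟩)]
  have hdg : Dc p L₁ L₂ (a.map g) (b.map g) := by
    refine ⟨hrel ▸ hx.wf.rel hgp hgi, ?_, ?_, hd.c1, hd.c2, ?_, ?_, ?_⟩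
    · intro q hq
      rw [← hg0 _ (g1 q hq).1]
      exact List.mem_map_of_mem (hd.g1 q hq)
    · intro q hq
      rw [← hg0 _ (g2 q hq).1]
      exact List.mem_map_of_mem (hd.g2 q hq)
    · intro t ht
      obtain ⟨t', h1, rfl⟩ := List.mem_map.1 ht
      rw [← hgp]
      exact List.mem_map_of_mem (hd.m1 t' h1)
    · intro t ht
      obtain ⟨t', h1, rfl⟩ := List.mem_map.1 ht
      rw [← hgp]
      exact List.mem_map_of_mem (hd.m2 t' h1)
    · simpa using hd.ne
  refine ⟨φ, hV, hrel, hdg, ?_⟩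
  -- the sides
  have hside : ∀ t, t ∈ ww L₁ (a.map g) ↔ t ∈ ww L₁ a' := by
    intro t
    have e1 : t ∈ ww L₁ (a.map g) ↔ g t ∈ ww L₁ a := by
      have e2 : ww L₁ (a.map g) = (ww L₁ a).map g := (ww_map hgi (fun q hq => ⟨hg0 _ (g1 q hq).1, hg0 _ (g1 q hq).2⟩) a).symm
      rw [e2, List.mem_map]
      constructor
      · rintro ⟨t', h1, rfl⟩
        rw [hgg]; exact h1
      · intro h1
        exact ⟨g t, h1, hgg t⟩
    rw [e1]
    have e3 : sd s (g t) = sd s' t := by
      rcases Pool.Agent.helper14.NT.zmod2_cases (φ t) with h0 | h1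
      · rw [hg0 t h0]
        have h2 : sd s t + sd s' t = 0 := h0
        linear_combination h2 - sd s' t * zmod_two
      · have h2 : g t = (inv2 (h := h) hx₀.wf).tau t := by
          rw [hg]
          unfold act
          rw [if_neg (by rw [h1]; decide)]
        have hnc : ∀ t, φ t = 1 → (∀ q ∈ L₁, q.1 ≠ t ∧ q.2 ≠ t) ∧ (∀ q ∈ L₂, q.1 ≠ t ∧ q.2 ≠ t) := by
          intro t ht
          have h01 : ¬ ((0 : ZMod 2) = 1) := by decide
          refine ⟨fun q hq => ⟨?_, ?_⟩, fun q hq => ⟨?_, ?_⟩⟩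
          · rintro rfl; exact h01 ((g1 q hq).1.symm.trans ht)
          · rintro rfl; exact h01 ((g1 q hq).2.symm.trans ht)
          · rintro rfl; exact h01 ((g2 q hq).1.symm.trans ht)
          · rintro rfl; exact h01 ((g2 q hq).2.symm.trans ht)
        have hmx : ∀ t, φ t = 1 → (t ∈ a ∨ t ∈ b) := by
          intro t ht
          obtain ⟨h3, h4⟩ := hnc t ht
          rw [hmix]
          rintro (h5 | h5)
          · obtain ⟨q, hq, h6⟩ := List.mem_map.1 h5
            exact (h3 q hq).2 h6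
          · obtain ⟨q, hq, h6⟩ := List.mem_map.1 h5
            exact (h4 q hq).2 h6
        have h5 := (inv2 (h := h) hx₀.wf).tau_alt φ (sd s) hp1 hp2 (fun t ht => hd.sd_p_mixed (hmx t ht)) (fun t ht => by
          have e1 : sd s (mu p h s₀ t) = sd s (mu p h s t) := by rw [hx.mu]
          rw [e1]
          apply hd.sd_mu_mixed
          obtain ⟨h3, h4⟩ := hnc t ht
          have h6 : (cL L₁ * cL L₂) t = t := by
            rw [Perm.mul_apply, cL_apply_of_notMem h4, cL_apply_of_notMem h3]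
          rw [h6]
          exact hmx t ht) t h1
        rw [h2, h5]
        have h6 : sd s t + sd s' t = 1 := h1
        linear_combination h6 + (1 - sd s' t) * zmod_two
    have e4 := (sd_eq_iff (s := s) (s' := s) (t := g t))
    have e5 : (g t ∈ s.1) ↔ (t ∈ s'.1) := by
      unfold sd at e3
      by_cases h1 : g t ∈ s.1 <;> by_cases h2 : t ∈ s'.1 <;> simp [h1, h2] at e3 ⊢
    exact e5
  intro t
  constructor
  · intro ht
    have h1 := (hside t).1 (hdg.mem1.2 (Or.inl ht))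
    rcases hd'.mem1.1 h1 with h2 | h2
    · exact h2
    · exact absurd ht (hdg.notMem1 h2)
  · intro ht
    have h1 := (hside t).2 (hd'.mem1.2 (Or.inl ht))
    rcases hdg.mem1.1 h1 with h2 | h2
    · exact h2
    · exact absurd ht (hd'.notMem1 h2)

/-- a decoded `S`-state: `e` in front of the second word, `p e` the last of the first. -/
structure Sd (p : Ω → Ω) (e : Ω) (L₁ L₂ : List (Ω × Ω)) (a b : List Ω) : Prop where
  dc : Dc p L₁ L₂ a b
  hb : b.head? = some e
  ha : a.getLast? = some (p e)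
  hl : (ww L₁ a).getLast? = some (p e)

theorem ground_unique {L : List (Ω × Ω)} {b : List Ω} (hn : (ww L b).Nodup) {g g' z : Ω} (hg : g ∈ b) (hg' : g' ∈ b)
    (h1 : (g, z) ∈ L) (h2 : (g', z) ∈ L) : g = g' := by
  by_contra hne
  have h3 := (List.nodup_flatMap.1 hn).2
  rw [List.pairwise_iff_getElem] at h3
  obtain ⟨i, hi, rfl⟩ := List.getElem_of_mem hg
  obtain ⟨j, hj, rfl⟩ := List.getElem_of_mem hg'
  rcases Nat.lt_trichotomy i j with hij | hij | hij
  · exact h3 i j hi hj hij (List.mem_cons_of_mem _ (mem_tl.2 h1)) (List.mem_cons_of_mem _ (mem_tl.2 h2))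
  · subst hij
    exact hne rfl
  · exact h3 j i hj hi hij (List.mem_cons_of_mem _ (mem_tl.2 h2)) (List.mem_cons_of_mem _ (mem_tl.2 h1))

/-- the class of the skeleton. -/
theorem cls_same {s₀ : St Ω} {h : ∀ t, p (p t) = t} {e : Ω} {L₁ L₂ : List (Ω × Ω)} {a b a' b' : List Ω}
    (hs : Sd p e L₁ L₂ a b) (hs' : Sd p e L₁ L₂ a' b')
    (hx : XS p h s₀ (ww L₁ a, ww L₂ b)) (hx' : XS p h s₀ (ww L₁ a', ww L₂ b')) (hm : ∀ t, t ∈ a ↔ t ∈ a') (e₁ : Ω)
    (he₁ : b'.getLast? = some e₁) :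
    Cls a'.toFinset (p e₁) (p e) (rho a' (b'.map p)) a (b.map p) := by
  have hd := hs.dc
  have hd' := hs'.dc
  have hna : a.Nodup := hd.nd1.sublist (sublist_ww _ _)
  have hnb : b.Nodup := hd.nd2.sublist (sublist_ww _ _)
  have hpi : Function.Injective p := fun x y hxy => by rw [← h x, hxy, h]
  have hnbp : (b.map p).Nodup := hnb.map hpi
  have hmem : ∀ t, t ∈ a ↔ t ∈ b.map p := by
    intro t
    rw [List.mem_map]
    constructor
    · intro h1
      exact ⟨p t, hd.m1 t h1, h t⟩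
    · rintro ⟨t', h1, rfl⟩
      exact hd.m2 t' h1
  have hlast : b.getLast? = some e₁ := by
    have hne : ww L₂ b ≠ [] := by
      intro h0
      have := sublist_ww L₂ b
      rw [h0, List.sublist_nil] at this
      exact hd.neb this
    obtain ⟨ℓ, hℓ⟩ : ∃ ℓ, (ww L₂ b).getLast? = some ℓ := by
      rw [List.getLast?_eq_getLast_of_ne_nil hne]
      exact ⟨_, rfl⟩
    have hℓ' : (ww L₂ b').getLast? = some ℓ := by
      rw [← hℓ]
      exact hx'.l2.trans hx.l2.symm
    obtain ⟨t, h1, h2⟩ := getLast?_ww hℓ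
    obtain ⟨t', h1', h2'⟩ := getLast?_ww hℓ'
    have ht' : t' = e₁ := by
      rw [he₁] at h1'
      exact (Option.some.inj h1').symm
    subst ht'
    rw [h1]
    congr 1
    have hcolb : ∀ g z, (g, z) ∈ L₂ → z ∉ b ∧ z ∉ b' := fun g z hgz =>
      ⟨hd.mir.notMem1 (List.mem_map_of_mem (f := Prod.snd) hgz), hd'.mir.notMem1 (List.mem_map_of_mem (f := Prod.snd) hgz)⟩
    rcases h2 with ⟨rfl, -⟩ | h2
    · rcases h2' with ⟨h3, -⟩ | h2'
      · exact h3.symm
      · exact absurd (List.mem_of_getLast? h1) (hcolb _ _ h2').1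
    · rcases h2' with ⟨rfl, -⟩ | h2'
      · exact absurd (List.mem_of_getLast? h1') (hcolb _ _ h2).2
      · exact ground_unique hd.nd2 (hd.g2 _ h2) (hd.g2 _ h2') h2 h2'
  refine ⟨hna, (List.perm_ext_iff_of_nodup hna hnbp).2 hmem, ?_, ?_, hs.ha, ?_, ?_⟩
  · ext t
    rw [List.mem_toFinset, List.mem_toFinset, hm]
  · rw [List.getLast?_map, hlast]
    rfl
  · intro k hk0 hkl hperm
    obtain ⟨y, b₀, rfl⟩ := List.exists_cons_of_ne_nil hd.neb
    have hy : y = e := by
      have := hs.hb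
      rw [List.head?_cons] at this
      exact Option.some.inj this
    subst hy
    have h1 : p y ∈ (List.map p (y :: b₀)).take k := by
      obtain ⟨k', rfl⟩ : ∃ k', k = k' + 1 := ⟨k - 1, by omega⟩
      rw [List.map_cons, List.take_succ_cons]
      exact List.mem_cons_self
    have h2 : p y ∈ a.take k := hperm.mem_iff.2 h1
    have h3 := hs.ha
    rcases List.eq_nil_or_concat' a with rfl | ⟨a₀, t, rfl⟩
    · simp at h3
    · rw [List.getLast?_concat] at h3
      have h4 : t = p y := Option.some.inj h3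
      subst h4
      rw [List.length_append, List.length_singleton] at hkl
      have h5 : (a₀ ++ [p y]).take k = a₀.take k := by
        rw [List.take_append_of_le_length (by omega)]
      rw [h5] at h2
      have h6 := List.mem_of_mem_take h2
      exact (List.nodup_append.1 hna).2.2 _ h6 _ (List.mem_singleton_self _) rfl
  · ext t
    rw [hd.sk.rho_eq (h := h), hd'.sk.rho_eq (h := h)]
    have e2 : mu p h (a, b) = mu p h (a', b') := by
      rw [hd.mu_eq, hd'.mu_eq, hx.mu, hx'.mu]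
    rw [e2]
    by_cases h1 : t ∈ a
    · rw [if_pos h1, if_pos ((hm t).1 h1)]
    · rw [if_neg h1, if_neg (fun h2 => h1 ((hm t).2 h2))]

/-! ## Walks of the skeleton are cheap -/

/-- the token state of a pair of words in the language of helper36. -/
def tk (p : Ω → Ω) (L₁ L₂ : List (Ω × Ω)) (v : List Ω × List Ω) : St Ω := (ww L₁ v.1, ww L₂ (v.2.map p))

theorem sup_reach (h : ∀ t, p (p t) = t) {L₁ L₂ : List (Ω × Ω)} {v v' : List Ω × List Ω} (hs : Sup v v') (hN : N p (tk p L₁ L₂ v)) :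
    Reach p 0 (tk p L₁ L₂ v) (tk p L₁ L₂ v') := by
  rcases hs with ⟨x, A, b1, b2, b3, h1, h2⟩ | ⟨x, A, b1, b2, b3, h1, h2⟩
  · subst h1 h2
    simp only [tk, List.map_append, List.map_cons, ww_append, ww_cons] at hN ⊢
    exact rotL x (ww L₂ (b1.map p)) (ww L₂ (b2.map p)) _ _ hN
  · have h1' : v = (b1 ++ (b2 ++ x :: b3), x :: A) := by
      have := congrArg Prod.swap h1
      simpa using this
    have h2' : v' = (b2 ++ (b1 ++ x :: b3), x :: A) := by
      have := congrArg Prod.swap h2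
      simpa using this
    subst h1' h2'
    simp only [tk, List.map_append, List.map_cons, ww_append, ww_cons] at hN ⊢
    have h3 := rotR (p := p) (p x) (ww L₁ b1) (ww L₁ b2) (tl L₁ x ++ ww L₁ b3) (tl L₂ (p x) ++ ww L₂ (A.map p))
    rw [h] at h3
    exact h3 hN

theorem walk_rt (h : ∀ t, p (p t) = t) {L₁ L₂ : List (Ω × Ω)} : ∀ (n : ℕ) {v v' : List Ω × List Ω}, Walk Sup n v v' → N p (tk p L₁ L₂ v) →
    RT p 0 (tk p L₁ L₂ v) (tk p L₁ L₂ v') := by
  intro n
  induction n with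
  | zero =>
    rintro v v' ⟨f, rfl, rfl, -⟩ hN
    exact ⟨.refl _ _ hN, .refl _ _ hN⟩
  | succ n ih =>
    rintro v v' hw hN
    obtain ⟨v1, h1, h2⟩ := Pool.Agent.helper36.WE.Walk.cons_inv hw
    have h3 := sup_reach h (L₁ := L₁) (L₂ := L₂) h1 hN
    have h4 := sup_reach h (L₁ := L₁) (L₂ := L₂) h1.symm h3.right
    have h5 := ih h2 h3.right
    exact ⟨h3.trans h5.1, h5.2.trans h4⟩

end NTH
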