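import Pool.Agent.helper14.NTA.ClsHub

/-!
# MP_c8d30a: states with the same cargo: sides, the skeleton, relabelling
-/

set_option autoImplicit false

namespace NTH

open Equiv
open Pool.Agent.helper36.WE (rho Cls)

variable {Ω : Type} [DecidableEq Ω] {p : Ω → Ω}

/-- the side. -/
def sd (s : St Ω) (t : Ω) : ZMod 2 := if t ∈ s.1 then 0 else 1

theorem sd_eq_iff {s s' : St Ω} {t : Ω} : sd s t = sd s' t ↔ (t ∈ s.1 ↔ t ∈ s'.1) := by
  unfold sd
  by_cases h1 : t ∈ s.1 <;> by_cases h2 : t ∈ s'.1 <;> simp [h1, h2]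

/-- the successor map keeps the sides, for a state with mixed fronts. -/
theorem sh_mem {x y : Ω} {U V : List Ω} (hpx : p x ∈ y :: V) (hd : ∀ t ∈ x :: U, t ∉ y :: V) (t : Ω) :
    sh p (x :: U, y :: V) t ∈ x :: U ↔ t ∈ x :: U := by
  have hy : y ∉ x :: U := fun h => hd y h List.mem_cons_self
  have hpx' : p x ∉ x :: U := fun h => hd _ h hpx
  simp only [sh, Perm.mul_apply]
  constructor
  · intro h
    by_contra ht
    have h1 : List.formPerm (y :: V) t ∉ x :: U := by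
      by_cases h2 : t ∈ y :: V
      · intro h3
        exact hd _ h3 (List.formPerm_apply_mem_of_mem h2)
      · rw [List.formPerm_apply_of_notMem h2]; exact ht
    rw [List.formPerm_apply_of_notMem h1] at h
    by_cases h2 : List.formPerm (y :: V) t = y
    · rw [h2, swap_apply_left] at h
      exact hpx' h
    · by_cases h3 : List.formPerm (y :: V) t = p x
      · rw [h3, swap_apply_right] at h
        exact hy h
      · rw [swap_apply_of_ne_of_ne h2 h3] at h
        exact h1 h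
  · intro h
    have h1 : List.formPerm (y :: V) t = t := List.formPerm_apply_of_notMem (hd t h)
    rw [h1]
    have h2 : List.formPerm (x :: U) t ∈ x :: U := List.formPerm_apply_mem_of_mem h
    have h3 : List.formPerm (x :: U) t ≠ y := fun h3 => hy (h3 ▸ h2)
    have h4 : List.formPerm (x :: U) t ≠ p x := fun h4 => hpx' (h4 ▸ h2)
    rw [swap_apply_of_ne_of_ne h3 h4]
    exact h2

namespace Dc

variable {L₁ L₂ : List (Ω × Ω)} {a b : List Ω} {h : ∀ t, p (p t) = t}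

theorem neb (hd : Dc p L₁ L₂ a b) : b ≠ [] := hd.mir.ne

/-- the skeleton is decoded too. -/
theorem sk (hd : Dc p L₁ L₂ a b) : Dc p [] [] a b := by
  refine ⟨?_, by simp, by simp, by simp, by simp, hd.m1, hd.m2, hd.ne⟩
  rw [ww_nil, ww_nil]
  refine ⟨?_, ?_, hd.wf.inv, hd.wf.ne⟩
  · exact hd.wf.nd.sublist (List.Sublist.append (sublist_ww _ _) (sublist_ww _ _))
  · intro t ht
    simp only [List.mem_append] at ht ⊢
    rcases ht with ht | ht
    · exact Or.inr (hd.m1 t ht)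
    · exact Or.inl (hd.m2 t ht)

theorem sh_eq (hd : Dc p L₁ L₂ a b) : sh p (ww L₁ a, ww L₂ b) = sh p (a, b) * (cL L₁ * cL L₂) := by
  have hdis : Perm.Disjoint (cL L₁) (List.formPerm b) := by
    rw [Perm.disjoint_iff_eq_or_eq]
    intro t
    by_cases ht : t ∈ b
    · left
      apply cL_apply_of_notMem
      intro q hq
      refine ⟨?_, ?_⟩
      · rintro rfl
        exact hd.dj (hd.mem1.2 (Or.inl (hd.g1 q hq))) (hd.mem2.2 (Or.inl ht))
      · rintro rfl
        exact hd.dj (hd.mem1.2 (Or.inr (List.mem_map_of_mem (f := Prod.snd) hq))) (hd.mem2.2 (Or.inl ht))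
    · right
      exact List.formPerm_apply_of_notMem ht
  have e1 := formPerm_ww a L₁ hd.nd1 hd.g1
  have e2 := formPerm_ww b L₂ hd.nd2 hd.g2
  have key : List.formPerm (ww L₁ a) * List.formPerm (ww L₂ b) = List.formPerm a * List.formPerm b * (cL L₁ * cL L₂) := by
    rw [e1, e2]
    calc List.formPerm a * cL L₁ * (List.formPerm b * cL L₂)
        = List.formPerm a * (cL L₁ * List.formPerm b) * cL L₂ := by simp only [mul_assoc]
      _ = List.formPerm a * (List.formPerm b * cL L₁) * cL L₂ := by rw [hdis.commute.eq]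
      _ = _ := by simp only [mul_assoc]
  obtain ⟨x, a', rfl⟩ := List.exists_cons_of_ne_nil hd.ne
  obtain ⟨y, b', rfl⟩ := List.exists_cons_of_ne_nil hd.neb
  rw [ww_cons, ww_cons] at key ⊢
  simp only [sh]
  rw [key]
  simp only [mul_assoc]

theorem mu_eq (hd : Dc p L₁ L₂ a b) : mu p h (a, b) = (cL L₁ * cL L₂) * mu p h (ww L₁ a, ww L₂ b) * (cL L₁ * cL L₂)⁻¹ := by
  unfold mu
  rw [hd.sh_eq]
  group

theorem sh_mem1 (hd : Dc p L₁ L₂ a b) (t : Ω) : sh p (ww L₁ a, ww L₂ b) t ∈ ww L₁ a ↔ t ∈ ww L₁ a := by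
  have hm1 := hd.m1
  have hdj := fun t => @dj Ω _ p L₁ L₂ a b hd t
  have hmem2 := fun t => @mem2 Ω _ p L₁ L₂ a b hd t
  obtain ⟨x, a', rfl⟩ := List.exists_cons_of_ne_nil hd.ne
  obtain ⟨y, b', rfl⟩ := List.exists_cons_of_ne_nil hd.neb
  have h1 : p x ∈ y :: (tl L₂ y ++ ww L₂ b') := (hmem2 _).2 (Or.inl (hm1 x List.mem_cons_self))
  show sh p (x :: (tl L₁ x ++ ww L₁ a'), y :: (tl L₂ y ++ ww L₂ b')) t ∈ x :: (tl L₁ x ++ ww L₁ a') ↔
    t ∈ x :: (tl L₁ x ++ ww L₁ a')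
  exact sh_mem h1 (fun s h2 h3 => hdj s h2 h3) t

theorem sh_mema (hd : Dc p L₁ L₂ a b) (t : Ω) : sh p (a, b) t ∈ a ↔ t ∈ a := by
  have := hd.sk.sh_mem1 t
  simpa only [ww_nil] using this

theorem sh_mir_apply (hd : Dc p [] [] a b) (t : Ω) (ht : t ∈ b) : sh p (a, b) t ∈ b := by
  have h1 := hd.sh_mema t
  have hm1 := hd.m1
  obtain ⟨x, a', rfl⟩ := List.exists_cons_of_ne_nil hd.ne
  obtain ⟨y, b', rfl⟩ := List.exists_cons_of_ne_nil hd.neb
  have hta : t ∉ x :: a' := fun h2 => hd.dj (t := t) (by rw [ww_nil]; exact h2) (by rw [ww_nil]; exact ht)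
  simp only [sh, Perm.mul_apply]
  have h3 : List.formPerm (y :: b') t ∈ y :: b' := List.formPerm_apply_mem_of_mem ht
  have h4 : List.formPerm (y :: b') t ∉ x :: a' := fun h2 => hd.dj (t := _) (by rw [ww_nil]; exact h2) (by rw [ww_nil]; exact h3)
  rw [List.formPerm_apply_of_notMem h4]
  by_cases h5 : List.formPerm (y :: b') t = y
  · rw [h5, swap_apply_left]
    exact hm1 x List.mem_cons_self
  · by_cases h6 : List.formPerm (y :: b') t = p x
    · rw [h6, swap_apply_right]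
      exact List.mem_cons_self
    · rw [swap_apply_of_ne_of_ne h5 h6]
      exact h3

theorem sh_fix (hd : Dc p [] [] a b) (t : Ω) (h1 : t ∉ a) (h2 : t ∉ b) : sh p (a, b) t = t := by
  have hm1 := hd.m1
  obtain ⟨x, a', rfl⟩ := List.exists_cons_of_ne_nil hd.ne
  obtain ⟨y, b', rfl⟩ := List.exists_cons_of_ne_nil hd.neb
  simp only [sh, Perm.mul_apply]
  rw [List.formPerm_apply_of_notMem h2, List.formPerm_apply_of_notMem h1]
  apply swap_apply_of_ne_of_ne
  · rintro rfl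
    exact h2 List.mem_cons_self
  · rintro rfl
    exact h2 (hm1 x List.mem_cons_self)

/-- mixed token. -/
theorem sd_p_mixed (hd : Dc p L₁ L₂ a b) {t : Ω} (ht : t ∈ a ∨ t ∈ b) :
    sd (ww L₁ a, ww L₂ b) (p t) = sd (ww L₁ a, ww L₂ b) t + 1 := by
  unfold sd
  rcases ht with ht | ht
  · have h1 : t ∈ ww L₁ a := hd.mem1.2 (Or.inl ht)
    have h2 : p t ∉ ww L₁ a := fun h2 => hd.dj h2 (hd.mem2.2 (Or.inl (hd.m1 t ht)))
    rw [if_pos h1, if_neg h2]; decide
  · have h1 : t ∉ ww L₁ a := fun h2 => hd.dj h2 (hd.mem2.2 (Or.inl ht))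
    have h2 : p t ∈ ww L₁ a := hd.mem1.2 (Or.inl (hd.m2 t ht))
    rw [if_neg h1, if_pos h2]; decide

/-- coloured token. -/
theorem sd_p_col (hd : Dc p L₁ L₂ a b) {t : Ω} (ht : t ∈ L₁.map Prod.snd ∨ t ∈ L₂.map Prod.snd) :
    sd (ww L₁ a, ww L₂ b) (p t) = sd (ww L₁ a, ww L₂ b) t := by
  unfold sd
  rcases ht with ht | ht
  · have h1 : t ∈ ww L₁ a := hd.mem1.2 (Or.inr ht)
    have h2 : p t ∈ ww L₁ a := hd.mem1.2 (Or.inr (hd.col1 ht))
    rw [if_pos h1, if_pos h2]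
  · have h1 : t ∉ ww L₁ a := fun h2 => hd.dj h2 (hd.mem2.2 (Or.inr ht))
    have h2 : p t ∉ ww L₁ a := fun h2 => hd.dj h2 (hd.mem2.2 (Or.inr (hd.mir.col1 ht)))
    rw [if_neg h1, if_neg h2]

theorem sd_mu (hd : Dc p L₁ L₂ a b) (t : Ω) :
    sd (ww L₁ a, ww L₂ b) (mu p h (ww L₁ a, ww L₂ b) t) = sd (ww L₁ a, ww L₂ b) (p (sh p (ww L₁ a, ww L₂ b) t)) := by
  unfold mu
  rw [Perm.mul_apply, Perm.mul_apply, pm_apply]
  have key : ∀ s, sd (ww L₁ a, ww L₂ b) ((sh p (ww L₁ a, ww L₂ b))⁻¹ s) = sd (ww L₁ a, ww L₂ b) s := by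
    intro s
    have h1 := hd.sh_mem1 ((sh p (ww L₁ a, ww L₂ b))⁻¹ s)
    have e : sh p (ww L₁ a, ww L₂ b) ((sh p (ww L₁ a, ww L₂ b))⁻¹ s) = s := Equiv.apply_symm_apply _ _
    rw [e] at h1
    unfold sd
    simp only [h1]
  exact key _

theorem sd_sh (hd : Dc p L₁ L₂ a b) (t : Ω) :
    sd (ww L₁ a, ww L₂ b) (sh p (ww L₁ a, ww L₂ b) t) = sd (ww L₁ a, ww L₂ b) t := by
  unfold sd
  simp only [hd.sh_mem1 t]

/-- the two cases of `mu`. -/
theorem sd_mu_mixed (hd : Dc p L₁ L₂ a b) (t : Ω) (ht : (cL L₁ * cL L₂) t ∈ a ∨ (cL L₁ * cL L₂) t ∈ b) :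
    sd (ww L₁ a, ww L₂ b) (mu p h (ww L₁ a, ww L₂ b) t) = sd (ww L₁ a, ww L₂ b) t + 1 := by
  rw [hd.sd_mu, hd.sd_p_mixed, hd.sd_sh]
  rw [hd.sh_eq, Perm.mul_apply]
  rcases ht with ht | ht
  · exact Or.inl ((hd.sh_mema _).2 ht)
  · exact Or.inr (hd.sk.sh_mir_apply _ ht)

theorem sd_mu_col (hd : Dc p L₁ L₂ a b) (hall : ∀ t, t ∈ ww L₁ a ∨ t ∈ ww L₂ b) (t : Ω)
    (h1 : (cL L₁ * cL L₂) t ∉ a) (h2 : (cL L₁ * cL L₂) t ∉ b) :
    sd (ww L₁ a, ww L₂ b) (mu p h (ww L₁ a, ww L₂ b) t) = sd (ww L₁ a, ww L₂ b) t := by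
  rw [hd.sd_mu, hd.sd_p_col, hd.sd_sh]
  rw [hd.sh_eq, Perm.mul_apply, hd.sk.sh_fix _ h1 h2]
  rcases hall ((cL L₁ * cL L₂) t) with h3 | h3
  · exact Or.inl ((hd.mem1.1 h3).resolve_left h1)
  · exact Or.inr ((hd.mem2.1 h3).resolve_left h2)

/-- the invariant of helper36 of the skeleton. -/
theorem rho_eq (hd : Dc p [] [] a b) (t : Ω) : rho a (b.map p) t = if t ∈ a then p (mu p h (a, b) t) else t := by
  have hm1 := hd.m1
  have hm2 := hd.m2
  have hdj : ∀ t, t ∈ a → t ∉ b := fun t h1 h2 => hd.dj (t := t) (by rw [ww_nil]; exact h1) (by rw [ww_nil]; exact h2)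
  obtain ⟨x, a', rfl⟩ := List.exists_cons_of_ne_nil hd.ne
  obtain ⟨y, b', rfl⟩ := List.exists_cons_of_ne_nil hd.neb
  have e1 : List.formPerm ((y :: b').map p) = pm p h * List.formPerm (y :: b') * (pm p h)⁻¹ := formPerm_rel (pm p h) (y :: b')
  have e2 : rho (x :: a') ((y :: b').map p) t = (List.formPerm ((y :: b').map p))⁻¹ (swap (p y) x (List.formPerm (x :: a') t)) := rfl
  have hpinv : (pm p h)⁻¹ = pm p h := by
    ext s
    rw [Perm.inv_eq_iff_eq, pm_apply, pm_apply, h]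
  rw [e2, e1]
  have e3 : ∀ s, (pm p h * List.formPerm (y :: b') * (pm p h)⁻¹)⁻¹ s = p ((List.formPerm (y :: b'))⁻¹ (p s)) := by
    intro s
    rw [mul_inv_rev, mul_inv_rev, inv_inv, hpinv]
    rfl
  rw [e3]
  by_cases ht : t ∈ x :: a'
  · rw [if_pos ht]
    congr 1
    simp only [mu, sh]
    rw [Perm.mul_apply, Perm.mul_apply, Perm.mul_apply, Perm.mul_apply, pm_apply, List.formPerm_apply_of_notMem (hdj t ht)]
    have h1 : List.formPerm (x :: a') t ∈ x :: a' := List.formPerm_apply_mem_of_mem ht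
    have h2 : List.formPerm (x :: a') t ≠ y := by
      intro h2
      exact hdj _ h1 (h2 ▸ List.mem_cons_self)
    have h3 : List.formPerm (x :: a') t ≠ p x := by
      intro h3
      exact hdj _ h1 (h3 ▸ hm1 x List.mem_cons_self)
    rw [swap_apply_of_ne_of_ne h2 h3]
    set u := List.formPerm (x :: a') t with hu
    rw [mul_inv_rev, mul_inv_rev, swap_inv, Perm.mul_apply, Perm.mul_apply]
    have h4 : swap y (p x) (p u) = p (swap (p y) x u) := by
      have h5 := pm_mul_swap (p := p) h (p y) x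
      have h6 := congrArg (fun f : Perm Ω => f u) h5
      simp only [Perm.mul_apply, pm_apply, h] at h6
      exact h6.symm
    rw [h4]
    congr 1
    have h7 : p (swap (p y) x u) ∈ y :: b' := by
      apply hm1
      by_cases h8 : u = p y
      · rw [h8, swap_apply_left]; exact List.mem_cons_self
      · by_cases h9 : u = x
        · rw [h9, swap_apply_right]; exact hm2 y List.mem_cons_self
        · rw [swap_apply_of_ne_of_ne h8 h9]; exact h1
    have h8 : p (swap (p y) x u) ∉ x :: a' := fun h9 => hdj _ h9 h7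
    symm
    rw [Perm.inv_eq_iff_eq, List.formPerm_apply_of_notMem h8]
  · rw [if_neg ht, List.formPerm_apply_of_notMem ht]
    have h1 : t ≠ p y := by
      rintro rfl
      exact ht (hm2 y List.mem_cons_self)
    have h2 : t ≠ x := by
      rintro rfl
      exact ht List.mem_cons_self
    rw [swap_apply_of_ne_of_ne h1 h2]
    have h3 : p t ∉ y :: b' := by
      intro h3
      have := hm2 _ h3
      rw [h] at this
      exact ht this
    have h4 : (List.formPerm (y :: b'))⁻¹ (p t) = p t := by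
      rw [Perm.inv_eq_iff_eq, List.formPerm_apply_of_notMem h3]
    rw [h4, h]

end Dc

end NTH
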