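import Mathlib

/-!
# MP_c8d30a: the reflections of the vertices

`P`, `M` two involutions without fixed points.  There is an involution `τ` which commutes with both, maps every orbit to itself, and
changes the colour if the colour alternates along the orbit.
-/

set_option autoImplicit false

namespace NTH

open Equiv

variable {Ω : Type}

/-- two involutions without fixed points. -/
structure Inv2 (P M : Perm Ω) : Prop where
  p2 : P * P = 1
  m2 : M * M = 1
  pf : ∀ t, P t ≠ t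
  mf : ∀ t, M t ≠ t

namespace Inv2

variable {P M : Perm Ω}

theorem pinv (h : Inv2 P M) : P⁻¹ = P := by
  rw [inv_eq_iff_mul_eq_one]; exact h.p2

theorem minv (h : Inv2 P M) : M⁻¹ = M := by
  rw [inv_eq_iff_mul_eq_one]; exact h.m2

theorem pp (h : Inv2 P M) (t : Ω) : P (P t) = t := by
  rw [← Perm.mul_apply, h.p2, Perm.one_apply]

theorem mm (h : Inv2 P M) (t : Ω) : M (M t) = t := by
  rw [← Perm.mul_apply, h.m2, Perm.one_apply]

theorem P_zpow (h : Inv2 P M) (j : ℤ) : P * (M * P) ^ j = (M * P) ^ (-j) * P := by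
  have h1 : SemiconjBy P (M * P) (M * P)⁻¹ := by
    unfold SemiconjBy
    rw [mul_inv_rev, h.pinv, h.minv, mul_assoc]
  have h2 := h1.zpow_right j
  unfold SemiconjBy at h2
  rw [h2, inv_zpow', ]

theorem P_zpow_apply (h : Inv2 P M) (j : ℤ) (t : Ω) : P (((M * P) ^ j) t) = ((M * P) ^ (-j)) (P t) := by
  rw [← Perm.mul_apply, h.P_zpow, Perm.mul_apply]

theorem M_zpow_apply (h : Inv2 P M) (j : ℤ) (t : Ω) : M (((M * P) ^ j) t) = ((M * P) ^ (1 - j)) (P t) := by
  have h1 : M (((M * P) ^ j) t) = (M * P) (P (((M * P) ^ j) t)) := by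
    rw [Perm.mul_apply, h.pp]
  rw [h1, h.P_zpow_apply, sub_eq_add_neg, zpow_add, zpow_one, Perm.mul_apply, Perm.mul_apply]
  rfl

theorem zz (j i : ℤ) (t : Ω) : ((M * P) ^ j) (((M * P) ^ i) t) = ((M * P) ^ (j + i)) t := by
  rw [← Perm.mul_apply, zpow_add]

theorem noFix (h : Inv2 P M) (j : ℤ) (b : Ω) : ((M * P) ^ j) (P b) ≠ b := by
  intro hj
  rcases Int.even_or_odd' j with ⟨i, hi | hi⟩
  · have h1 : P (((M * P) ^ (-i)) b) = ((M * P) ^ (-i)) b := by
      rw [h.P_zpow_apply, neg_neg]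
      conv_rhs => rw [← hj]
      rw [zz, hi]
      congr 2
      ring
    exact h.pf _ h1
  · have h1 : M (((M * P) ^ (-i)) b) = ((M * P) ^ (-i)) b := by
      rw [h.M_zpow_apply]
      conv_rhs => rw [← hj]
      rw [zz, hi]
      congr 2
      ring
    exact h.mf _ h1

theorem noFix' (h : Inv2 P M) (j i : ℤ) (b : Ω) : ((M * P) ^ j) (P b) ≠ ((M * P) ^ i) b := by
  intro hj
  apply h.noFix (-i + j) b
  rw [← zz, hj, zz]
  simp

theorem same (h : Inv2 P M) (j i : ℤ) (b : Ω) (hj : ((M * P) ^ j) b = ((M * P) ^ i) b) :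
    ((M * P) ^ j) (P b) = ((M * P) ^ i) (P b) := by
  have h1 : ((M * P) ^ (-(i + j) + j)) b = ((M * P) ^ (-(i + j) + i)) b := by
    rw [← zz, hj, zz]
  have h2 : ((M * P) ^ (-i)) b = ((M * P) ^ (-j)) b := by
    have e1 : -(i + j) + j = -i := by ring
    have e2 : -(i + j) + i = -j := by ring
    rw [e1, e2] at h1
    exact h1
  have h3 := congrArg P h2
  rw [h.P_zpow_apply, h.P_zpow_apply, neg_neg, neg_neg] at h3
  exact h3.symm

/-- same orbit. -/
def Orb (P M : Perm Ω) (t t' : Ω) : Prop := ∃ j : ℤ, t' = ((M * P) ^ j) t ∨ t' = ((M * P) ^ j) (P t)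

theorem Orb.refl (t : Ω) : Orb P M t t := ⟨0, Or.inl (by simp)⟩

theorem Orb.symm (h : Inv2 P M) {t t' : Ω} (ho : Orb P M t t') : Orb P M t' t := by
  obtain ⟨j, rfl | rfl⟩ := ho
  · exact ⟨-j, Or.inl (by rw [zz]; simp)⟩
  · refine ⟨j, Or.inr ?_⟩
    rw [h.P_zpow_apply, h.pp, zz]
    simp

theorem Orb.trans (h : Inv2 P M) {t t' t'' : Ω} (ho : Orb P M t t') (ho' : Orb P M t' t'') : Orb P M t t'' := by
  obtain ⟨j, rfl | rfl⟩ := ho
  · obtain ⟨i, rfl | rfl⟩ := ho'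
    · exact ⟨i + j, Or.inl (by rw [zz])⟩
    · exact ⟨i + -j, Or.inr (by rw [h.P_zpow_apply, zz])⟩
  · obtain ⟨i, rfl | rfl⟩ := ho'
    · exact ⟨i + j, Or.inr (by rw [zz])⟩
    · exact ⟨i + -j, Or.inl (by rw [h.P_zpow_apply, h.pp, zz])⟩

/-- the orbits. -/
def orbSetoid (h : Inv2 P M) : Setoid Ω where
  r := Orb P M
  iseqv := ⟨Orb.refl, fun ho => Orb.symm h ho, fun ho ho' => Orb.trans h ho ho'⟩

/-- the base point of the orbit. -/
noncomputable def base (h : Inv2 P M) (t : Ω) : Ω := (Quotient.mk (orbSetoid h) t).out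

theorem base_orb (h : Inv2 P M) (t : Ω) : Orb P M (base h t) t :=
  Quotient.mk_out (s := orbSetoid h) t

theorem base_eq (h : Inv2 P M) {t t' : Ω} (ho : Orb P M t t') : base h t = base h t' := by
  unfold base
  have : Quotient.mk (orbSetoid h) t = Quotient.mk (orbSetoid h) t' := Quotient.sound ho
  rw [this]

/-- the reflection as a relation, `b` = the base point. -/
def TR (P M : Perm Ω) (b t t' : Ω) : Prop := ∃ j : ℤ, (t = ((M * P) ^ j) b ∧ t' = ((M * P) ^ j) (P b)) ∨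
  (t = ((M * P) ^ j) (P b) ∧ t' = ((M * P) ^ j) b)

theorem TR.symm {b t t' : Ω} (ht : TR P M b t t') : TR P M b t' t := by
  obtain ⟨j, ⟨h1, h2⟩ | ⟨h1, h2⟩⟩ := ht
  · exact ⟨j, Or.inr ⟨h2, h1⟩⟩
  · exact ⟨j, Or.inl ⟨h2, h1⟩⟩

theorem TR.uniq (h : Inv2 P M) {b t t' t'' : Ω} (h1 : TR P M b t t') (h2 : TR P M b t t'') : t' = t'' := by
  obtain ⟨j, ⟨h1, rfl⟩ | ⟨h1, rfl⟩⟩ := h1
  · obtain ⟨i, ⟨h3, rfl⟩ | ⟨h3, rfl⟩⟩ := h2
    · exact h.same j i b (h1.symm.trans h3)
    · exact absurd (h3.symm.trans h1) (h.noFix' i j b)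
  · obtain ⟨i, ⟨h3, rfl⟩ | ⟨h3, rfl⟩⟩ := h2
    · exact absurd (h1.symm.trans h3) (h.noFix' j i b)
    · have h4 := h.same j i (P b) (h1.symm.trans h3)
      rwa [h.pp] at h4

theorem TR.mapP (h : Inv2 P M) {b t t' : Ω} (h1 : TR P M b t t') : TR P M b (P t) (P t') := by
  obtain ⟨j, ⟨rfl, rfl⟩ | ⟨rfl, rfl⟩⟩ := h1
  · refine ⟨-j, Or.inr ⟨h.P_zpow_apply _ _, ?_⟩⟩
    rw [h.P_zpow_apply, h.pp]
  · refine ⟨-j, Or.inl ⟨?_, h.P_zpow_apply _ _⟩⟩
    rw [h.P_zpow_apply, h.pp]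

theorem TR.mapM (h : Inv2 P M) {b t t' : Ω} (h1 : TR P M b t t') : TR P M b (M t) (M t') := by
  obtain ⟨j, ⟨rfl, rfl⟩ | ⟨rfl, rfl⟩⟩ := h1
  · refine ⟨1 - j, Or.inr ⟨h.M_zpow_apply _ _, ?_⟩⟩
    rw [h.M_zpow_apply, h.pp]
  · refine ⟨1 - j, Or.inl ⟨?_, h.M_zpow_apply _ _⟩⟩
    rw [h.M_zpow_apply, h.pp]

theorem TR.ex {b t : Ω} (ho : Orb P M b t) : ∃ t', TR P M b t t' := by
  obtain ⟨j, rfl | rfl⟩ := ho
  · exact ⟨_, j, Or.inl ⟨rfl, rfl⟩⟩
  · exact ⟨_, j, Or.inr ⟨rfl, rfl⟩⟩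

theorem TR.orb (_h : Inv2 P M) {b t t' : Ω} (h1 : TR P M b t t') : Orb P M b t' := by
  obtain ⟨j, ⟨-, rfl⟩ | ⟨-, rfl⟩⟩ := h1
  · exact ⟨j, Or.inr rfl⟩
  · exact ⟨j, Or.inl rfl⟩

/-- the reflection. -/
noncomputable def tau (h : Inv2 P M) (t : Ω) : Ω := (TR.ex (base_orb h t)).choose

theorem tau_spec (h : Inv2 P M) (t : Ω) : TR P M (base h t) t (tau h t) := (TR.ex (base_orb h t)).choose_spec

theorem tau_eq (h : Inv2 P M) {t t' : Ω} (h1 : TR P M (base h t) t t') : tau h t = t' :=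
  TR.uniq h (tau_spec h t) h1

theorem base_tau (h : Inv2 P M) (t : Ω) : base h (tau h t) = base h t := by
  have h1 := TR.orb h (tau_spec h t)
  exact (base_eq h (Orb.trans h (Orb.symm h (base_orb h t)) h1)).symm

theorem base_P (h : Inv2 P M) (t : Ω) : base h (P t) = base h t :=
  (base_eq h ⟨0, Or.inr (by simp)⟩).symm

theorem base_M (h : Inv2 P M) (t : Ω) : base h (M t) = base h t :=
  (base_eq h ⟨1, Or.inr (by rw [zpow_one, Perm.mul_apply, h.pp])⟩).symm

theorem tau_tau (h : Inv2 P M) (t : Ω) : tau h (tau h t) = t := by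
  apply tau_eq
  rw [base_tau]
  exact (tau_spec h t).symm

theorem tau_P (h : Inv2 P M) (t : Ω) : tau h (P t) = P (tau h t) := by
  apply tau_eq
  rw [base_P]
  exact TR.mapP h (tau_spec h t)

theorem tau_M (h : Inv2 P M) (t : Ω) : tau h (M t) = M (tau h t) := by
  apply tau_eq
  rw [base_M]
  exact TR.mapM h (tau_spec h t)

theorem inv_zpow_apply {α : Type*} (φ : Ω → α) (r : Perm Ω) (hr : ∀ t, φ (r t) = φ t) (j : ℤ) (t : Ω) : φ ((r ^ j) t) = φ t := by
  have key : ∀ (n : ℕ) (t : Ω), φ ((r ^ n) t) = φ t := by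
    intro n
    induction n with
    | zero => intro t; simp
    | succ n ih => intro t; rw [pow_succ, Perm.mul_apply, ih, hr]
  cases j with
  | ofNat n => simpa using key n t
  | negSucc n =>
    have h1 := key (n + 1) ((r ^ (Int.negSucc n)) t)
    rw [← h1, ← Perm.mul_apply]
    congr 1
    rw [zpow_negSucc]
    simp

/-- a function which is constant on the orbits does not see the reflection. -/
theorem tau_const {α : Type*} (h : Inv2 P M) (φ : Ω → α) (h1 : ∀ t, φ (P t) = φ t) (h2 : ∀ t, φ (M t) = φ t) (t : Ω) :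
    φ (tau h t) = φ t := by
  have h3 : ∀ t, φ ((M * P) t) = φ t := fun t => by rw [Perm.mul_apply, h2, h1]
  obtain ⟨j, ⟨e1, e2⟩ | ⟨e1, e2⟩⟩ := tau_spec h t
  · rw [e2, inv_zpow_apply φ _ h3, h1, ← inv_zpow_apply φ _ h3 j (base h t), ← e1]
  · rw [e2, inv_zpow_apply φ _ h3, ← h1, ← inv_zpow_apply φ _ h3 j (P (base h t)), ← e1]

/-- a colour which alternates along the orbit of `t` is changed by the reflection. -/
theorem tau_alt (h : Inv2 P M) (φ o : Ω → ZMod 2) (h1 : ∀ t, φ (P t) = φ t) (h2 : ∀ t, φ (M t) = φ t)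
    (h3 : ∀ t, φ t = 1 → o (P t) = o t + 1) (h4 : ∀ t, φ t = 1 → o (M t) = o t + 1) (t : Ω) (ht : φ t = 1) :
    o (tau h t) = o t + 1 := by
  have h5 : ∀ t, φ ((M * P) t) = φ t := fun t => by rw [Perm.mul_apply, h2, h1]
  -- a function which is constant under the rotation
  let ψ : Ω → ZMod 2 := fun t => if φ t = 1 then o t else 0
  have h6 : ∀ t, ψ ((M * P) t) = ψ t := by
    intro t
    simp only [ψ, h5]
    by_cases hf : φ t = 1
    · rw [if_pos hf, if_pos hf, Perm.mul_apply, h4 _ (by rw [h1]; exact hf), h3 _ hf, add_assoc]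
      have : (1 : ZMod 2) + 1 = 0 := by decide
      rw [this, add_zero]
    · rw [if_neg hf, if_neg hf]
  obtain ⟨j, ⟨e1, e2⟩ | ⟨e1, e2⟩⟩ := tau_spec h t
  · have hb : φ (base h t) = 1 := by
      rw [← ht, e1, inv_zpow_apply φ _ h5, ← e1]
    have h7 : o t = o (base h t) := by
      have h8 := inv_zpow_apply ψ _ h6 j (base h t)
      simp only [ψ] at h8
      rw [← e1, if_pos ht, if_pos hb] at h8
      exact h8
    have h9 : o (tau h t) = o (P (base h t)) := by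
      have h8 := inv_zpow_apply ψ _ h6 j (P (base h t))
      simp only [ψ] at h8
      rw [← e2, if_pos (by rw [tau_const h φ h1 h2]; exact ht), if_pos (by rw [h1]; exact hb)] at h8
      exact h8
    rw [h9, h3 _ hb, h7]
  · have hb : φ (base h t) = 1 := by
      have h8 : φ t = φ (P (base h t)) := by
        conv_lhs => rw [e1]
        rw [inv_zpow_apply φ _ h5]
      rw [← ht, h8, h1]
    have h7 : o t = o (P (base h t)) := by
      have h8 := inv_zpow_apply ψ _ h6 j (P (base h t))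
      simp only [ψ] at h8
      rw [← e1, if_pos ht, if_pos (by rw [h1]; exact hb)] at h8
      exact h8
    have h9 : o (tau h t) = o (base h t) := by
      have h8 := inv_zpow_apply ψ _ h6 j (base h t)
      simp only [ψ] at h8
      rw [← e2, if_pos (by rw [tau_const h φ h1 h2]; exact ht), if_pos hb] at h8
      exact h8
    rw [h9, h7, h3 _ hb, add_assoc]
    have : (1 : ZMod 2) + 1 = 0 := by decide
    rw [this, add_zero]

end Inv2

end NTH
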