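import Pool.Agent.helper65.GP.ASM
import Pool.Agent.helper36.WE.SegBound

/-!
# MP_c8d30a: the assembly from the token model to the Nielsen graphs (statements)

Model: helper3/NTH/Base (`St`, `Sp`, `Reach`, `WF`, `Irr`, `N`), helper65/GP/PF (`Pth`).
-/

set_option autoImplicit false

namespace NTH

open Pool.Agent.helper36.WE (Eqn Quadratic size PathLen)

/-- `TB F`: paths between irreducible two sided states (all states in `N`) can be shortened to cost `F m`, `m` = the number of tokens. -/
def TB (F : ℕ → ℕ) : Prop := ∀ (Ω : Type) (p : Ω → Ω) (s t : St Ω) (a : ℕ), WF p s → Irr p s → Reach p a s t →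
  Reach p (F (s.1 ++ s.2).length) s t

/-- `GB G`: all paths between token states can be shortened to cost `G m`. -/
def GB (G : ℕ → ℕ) : Prop := ∀ (Ω : Type) (p : Ω → Ω) (s t : St Ω) (a : ℕ), WF p s → Pth p (fun _ => True) a s t →
  ∃ a' ≤ G (s.1 ++ s.2).length, Pth p (fun _ => True) a' s t

/-- PH: PHASES.
PROOF. `s = (U1 ++ U2, V1 ++ V2)` with `(U2, V2)` = the LONGEST closed pair of suffixes with `U1`, `V1` nonempty (the union of two closed pairs of suffixes is one; if a side of `s` is empty there is no step). As long as both words of the active part `(U1, V1)` are nonempty the steps of `s` are the steps of the active part (`U2`, `V2` do not move); the active part is `WF` and `Irr` (maximality).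
In the active part: first states in `N` (`TB F`, cost `F m`), then one step, then states not in `N`: if the second word has no pair this stays so and every step of cost `1` makes the second word shorter (symmetric: the first word), so the cost is at most `m`. When one word of the active part, say `V1`, becomes empty, the state is `(U1' ++ U2, V2)`;
its longest closed pair of suffixes `(U2', V2')` is shorter: `V2'` is a proper suffix of `V2`, `U2'` is a suffix of `U2` (a closed suffix `S` of `U1'`, `S` not the whole: the last step was `(x :: (A ++ p x :: B), [y])` to `(x :: (A ++ y :: p x :: B), [])`, `x` not in `S`, so `p x` not in `S`, `S` is a suffix of `B`, `(S, [])` was closed: `S = []` by `Irr`).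
So there are at most `m + 1` phases, each of cost `F m + 1 + m` at most. -/
def PH_stmt : Prop := ∀ F : ℕ → ℕ, Monotone F → TB F → GB (fun m => (m + 1) * (F m + 2 * m + 2))

/-- UB: FROM TOKENS TO EQUATIONS OF A FIXED LENGTH.
PROOF. Tokens `Ω = X × Bool`, `p (x, b) = (x, !b)`; tails `w : X × Bool → List (X ⊕ A)`, no doubled variable in the tails (`WE.dbl E`, fixed along the path by `levelstep`); `dec U = U.flatMap (fun o => inl o.1 :: w o)`. FULL equation: each side is empty or begins with a doubled variable; it is `(dec U, dec V)` for a state `(U, V)`, `WF`.
(1) A token step `(x :: U, y :: V)`, `x` wins, is `1 + (w y).length` steps of the equation (all with the winner `x`: `DStepL`; `insLeft`, first for `y`, then for the letters of `w y`), of the kind regular (`DStep D`, `D` = variables which occur once on both sides) iff the cost is `0`.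
(2) Conversely a path of constant length from a full equation is the decoding of a token path followed by less than `size E` steps inside one such run: after the first step the front of the loser side is a letter of `w y`, so the winner is forced (`levelstep`: a step of constant length has a doubled winner; a step with equal fronts is not of constant length).
(3) A path which starts at an equation that is not full: one side begins with `k ≥ 1` letters that are not doubled, the other with a doubled variable (otherwise there is no step of constant length), the next `k` steps are forced; then it is full. (4) `GB G` for the token path; blocks of token steps of cost `0` between the steps of cost `1` are `ReflTransGen (DStep D)`, `seg_bound`: `size E * (55 * D.card ^ 4 + 2)` steps; `m ≤ size E`. -/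
def UB_stmt : Prop := ∀ G : ℕ → ℕ, Monotone G → GB G → ∀ (X A : Type) [DecidableEq X] [DecidableEq A] (E E' : Eqn X A),
  Quadratic E → Pool.Agent.helper36.WE.Reach E E' → size E' = size E →
    ∃ n ≤ (G (size E) + 1) * (size E * (55 * size E ^ 4 + 2) + size E) + 2 * size E, PathLen n E E'

/-- FD: FROM FIXED LENGTH TO ALL PATHS (`WE.shorten` with `Φ = size`). -/
def FD_stmt : Prop := ∀ K : ℕ → ℕ, Monotone K →
  (∀ (X A : Type) [DecidableEq X] [DecidableEq A] (E E' : Eqn X A), Quadratic E → Pool.Agent.helper36.WE.Reach E E' → size E' = size E →
    ∃ n ≤ K (size E), PathLen n E E') →
  ∀ (X A : Type) [DecidableEq X] [DecidableEq A] (E E' : Eqn X A), Quadratic E → Pool.Agent.helper36.WE.Reach E E' →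
    ∃ n ≤ (size E + 1) * (K (size E) + 1), PathLen n E E'

end NTH
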