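import Pool.Agent.helper14.NTA.Cnt
import Pool.Agent.helper14.NTA.Spec
import Pool.Agent.helper55.NT.AHP

/-!
# MP_c8d30a: from (A) to the bound for irreducible two sided states
-/

set_option autoImplicit false

namespace NTH

open Equiv

/-- the number of coloured tokens. -/
noncomputable def nc {Ω : Type} (p : Ω → Ω) (s : St Ω) : ℕ := by
  classical
  exact (s.1.filter (fun t => decide (p t ∈ s.1))).length + (s.2.filter (fun t => decide (p t ∈ s.2))).length

/-- (A): every double standard state has a round trip of cost `P m` to an `S`-state with at most `c` coloured tokens. -/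
def HA (c : ℕ) (P : ℕ → ℕ) : Prop := ∀ (Ω : Type) (p : Ω → Ω) (s : St Ω), WF p s → Irr p s → DS p s →
  ∃ (e : Ω) (A B : List Ω), RT p (P (s.1 ++ s.2).length) s (A ++ [p e], e :: B) ∧ nc p (A ++ [p e], e :: B) ≤ c

section
variable {Ω : Type} [DecidableEq Ω] {p : Ω → Ω}

theorem nc_eq (s : St Ω) : nc p s = (s.1.filter (fun t => decide (p t ∈ s.1))).length + (s.2.filter (fun t => decide (p t ∈ s.2))).length := by
  unfold nc
  refine congrArg₂ (· + ·) (congrArg List.length (List.filter_congr (fun t _ => ?_))) (congrArg List.length (List.filter_congr (fun t _ => ?_)))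
  · rw [decide_eq_decide]
  · rw [decide_eq_decide]

/-- rotation so that the front is mixed. -/
theorem rot_mixed {e : Ω} {A B : List Ω} (hN : N p (A ++ [p e], e :: B)) {f : Ω} (hf : f ∈ A) :
    ∃ A' : List Ω, (f :: A').Perm A ∧ RT p 0 (A ++ [p e], e :: B) (f :: A' ++ [p e], e :: B) := by
  obtain ⟨C, D, rfl⟩ := List.append_of_mem hf
  refine ⟨D ++ C, ?_, ?_⟩
  · have h1 : (f :: (D ++ C)) = (f :: D) ++ C := rfl
    rw [h1]
    exact List.perm_append_comm
  · have h1 := rotR (p := p) e C (f :: D) [] B (by simpa using hN)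
    have h2 := rotR (p := p) e (f :: D) C [] B (by simpa using h1.right)
    exact ⟨by simpa using h1, by simpa using h2⟩

/-- decoding of an `S`-state with mixed front. -/
theorem decode_S {h : ∀ t, p (p t) = t} {c : ℕ} {e f : Ω} {A B : List Ω} (hw : WF p (f :: A ++ [p e], e :: B))
    (hf : p f ∈ e :: B) (hc : nc p (f :: A ++ [p e], e :: B) ≤ c) :
    ∃ (L₁ L₂ : List (Ω × Ω)) (a b : List Ω), (f :: A ++ [p e], e :: B) = (ww L₁ a, ww L₂ b) ∧ Sd p e L₁ L₂ a b ∧
      L₁.length ≤ c ∧ L₂.length ≤ c := by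
  classical
  set U : List Ω := f :: A ++ [p e] with hU
  set V : List Ω := e :: B with hV
  have hdj : ∀ t, t ∈ U → t ∈ V → False := fun t h1 h2 => (List.nodup_append.1 hw.nd).2.2 t h1 t h2 rfl
  have hcl : ∀ t, t ∈ U ∨ t ∈ V → p t ∈ U ∨ p t ∈ V := fun t ht => List.mem_append.1 (hw.cl t (List.mem_append.2 ht))
  have hUc : U = f :: (A ++ [p e]) := rfl
  have heU : p e ∈ U := by rw [hU]; simp
  obtain ⟨L₁, a, u1, u2, u3, u4, -, u6⟩ := decode (fun t => p t ∈ V) f hf (A ++ [p e]) (List.nodup_append.1 hw.nd).1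
  obtain ⟨L₂, b, v1, v2, v3, v4, -, v6⟩ := decode (fun t => p t ∈ U) e heU B (List.nodup_append.1 hw.nd).2.1
  rw [← hUc] at u1
  rw [← hV] at v1
  have hz1 : ∀ t ∈ L₁.map Prod.snd, t ∈ U ∧ p t ∈ U := by
    intro t ht
    obtain ⟨q, hq, rfl⟩ := List.mem_map.1 ht
    have h1 : q.2 ∈ U := by
      rw [u1]
      exact mem_ww.2 (Or.inr ⟨q.1, u2 q hq, hq⟩)
    refine ⟨h1, ?_⟩
    rcases hcl q.2 (Or.inl h1) with h2 | h2
    · exact h2
    · exact absurd h2 (u4 _ ht)
  have hz2 : ∀ t ∈ L₂.map Prod.snd, t ∈ V ∧ p t ∈ V := by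
    intro t ht
    obtain ⟨q, hq, rfl⟩ := List.mem_map.1 ht
    have h1 : q.2 ∈ V := by
      rw [v1]
      exact mem_ww.2 (Or.inr ⟨q.1, v2 q hq, hq⟩)
    refine ⟨h1, ?_⟩
    rcases hcl q.2 (Or.inr h1) with h2 | h2
    · exact absurd h2 (v4 _ ht)
    · exact h2
  have hdc : Dc p L₁ L₂ (f :: a) (e :: b) := by
    refine ⟨?_, u2, v2, ?_, ?_, ?_, ?_, List.cons_ne_nil _ _⟩
    · rw [← u1, ← v1]; exact hw
    · intro q hq
      obtain ⟨h1, h2⟩ := hz1 q.2 (List.mem_map_of_mem (f := Prod.snd) hq)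
      have h3 := h2
      rw [u1, mem_ww] at h3
      rcases h3 with h3 | ⟨g, h3, h4⟩
      · have h5 := u3 _ h3
        simp only [h] at h5
        exact absurd h5 (fun h6 => hdj _ h1 h6)
      · exact List.mem_map_of_mem (f := Prod.snd) h4
    · intro q hq
      obtain ⟨h1, h2⟩ := hz2 q.2 (List.mem_map_of_mem (f := Prod.snd) hq)
      have h3 := h2
      rw [v1, mem_ww] at h3
      rcases h3 with h3 | ⟨g, h3, h4⟩
      · have h5 := v3 _ h3
        simp only [h] at h5
        exact absurd h5 (fun h6 => hdj _ h6 h1)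
      · exact List.mem_map_of_mem (f := Prod.snd) h4
    · intro t ht
      have h1 : p t ∈ V := u3 t ht
      have h2 : t ∈ U := by
        rw [u1]
        exact mem_ww.2 (Or.inl ht)
      have h3 := h1
      rw [v1, mem_ww] at h3
      rcases h3 with h3 | ⟨g, h3, h4⟩
      · exact h3
      · have h5 := v4 _ (List.mem_map_of_mem (f := Prod.snd) h4)
        simp only [h] at h5
        exact absurd h2 h5
    · intro t ht
      have h1 : p t ∈ U := v3 t ht
      have h2 : t ∈ V := by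
        rw [v1]
        exact mem_ww.2 (Or.inl ht)
      have h3 := h1
      rw [u1, mem_ww] at h3
      rcases h3 with h3 | ⟨g, h3, h4⟩
      · exact h3
      · have h5 := u4 _ (List.mem_map_of_mem (f := Prod.snd) h4)
        simp only [h] at h5
        exact absurd h2 h5
  have hl : (ww L₁ (f :: a)).getLast? = some (p e) := by
    rw [← u1, hU, List.getLast?_concat]
  refine ⟨L₁, L₂, f :: a, e :: b, by rw [← u1, ← v1], ⟨hdc, rfl, ?_, hl⟩, ?_, ?_⟩
  · obtain ⟨t, h1, h2⟩ := getLast?_ww hl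
    rcases h2 with ⟨rfl, -⟩ | h2
    · exact h1
    · have h3 := u4 _ (List.mem_map_of_mem (f := Prod.snd) h2)
      simp only [h] at h3
      exact absurd List.mem_cons_self h3
  · refine (u6 (U.filter (fun t => decide (p t ∈ U))) ?_).trans ?_
    · intro t ht
      obtain ⟨h1, h2⟩ := hz1 t ht
      simp [h1, h2]
    · rw [nc_eq] at hc
      exact (Nat.le_add_right _ _).trans hc
  · refine (v6 (V.filter (fun t => decide (p t ∈ V))) ?_).trans ?_
    · intro t ht
      obtain ⟨h1, h2⟩ := hz2 t ht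
      simp [h1, h2]
    · rw [nc_eq] at hc
      exact (Nat.le_add_left _ _).trans hc

/-- a large state with little cargo has a mixed token besides `e`. -/
theorem exists_mixed {h : ∀ t, p (p t) = t} {c : ℕ} {e : Ω} {A B : List Ω} (hw : WF p (A ++ [p e], e :: B))
    (hc : nc p (A ++ [p e], e :: B) ≤ c) (hm : c + 2 < ((A ++ [p e]) ++ (e :: B)).length) : ∃ f ∈ A, p f ∈ e :: B := by
  classical
  by_contra hno
  push Not at hno
  have hdj : ∀ t, t ∈ A ++ [p e] → t ∈ e :: B → False := fun t h1 h2 => (List.nodup_append.1 hw.nd).2.2 t h1 t h2 rfl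
  have hcl : ∀ t, t ∈ A ++ [p e] ∨ t ∈ e :: B → p t ∈ A ++ [p e] ∨ p t ∈ e :: B := fun t ht =>
    List.mem_append.1 (hw.cl t (List.mem_append.2 ht))
  have hA : ∀ t ∈ A, p t ∈ A ++ [p e] := by
    intro t ht
    rcases hcl t (Or.inl (List.mem_append_left _ ht)) with h1 | h1
    · exact h1
    · exact absurd h1 (hno t ht)
  have hB : ∀ t ∈ B, p t ∈ e :: B := by
    intro t ht
    rcases hcl t (Or.inr (List.mem_cons_of_mem _ ht)) with h1 | h1
    · exfalso
      rcases List.mem_append.1 h1 with h2 | h2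
      · have h3 := hA _ h2
        rw [h] at h3
        exact hdj t h3 (List.mem_cons_of_mem _ ht)
      · rw [List.mem_singleton] at h2
        have h3 : t = e := by rw [← h t, h2, h]
        subst h3
        exact (List.nodup_cons.1 (List.nodup_append.1 hw.nd).2.1).1 ht
    · exact h1
  have h1 : A.length ≤ ((A ++ [p e]).filter (fun t => decide (p t ∈ A ++ [p e]))).length := by
    rw [List.filter_append, List.length_append]
    have : A.filter (fun t => decide (p t ∈ A ++ [p e])) = A := by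
      rw [List.filter_eq_self]
      intro t ht
      simpa using hA t ht
    rw [this]
    exact Nat.le_add_right _ _
  have h2 : B.length ≤ ((e :: B).filter (fun t => decide (p t ∈ e :: B))).length := by
    have : B.filter (fun t => decide (p t ∈ e :: B)) = B := by
      rw [List.filter_eq_self]
      intro t ht
      simpa using hB t ht
    have h3 : (B.filter (fun t => decide (p t ∈ e :: B))).length ≤ ((e :: B).filter (fun t => decide (p t ∈ e :: B))).length :=
      ((List.sublist_cons_self e B).filter _).length_le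
    rwa [this] at h3
  have h3 : A.length + B.length ≤ c := by
    rw [nc_eq] at hc
    exact (Nat.add_le_add h1 h2).trans hc
  simp only [List.length_append, List.length_cons, List.length_nil] at hm
  omega

end

/-! ## The bound -/

/-- the number of representatives. -/
def NRc (c m : ℕ) : ℕ := ((c + 1) * (m * m) ^ c) * (((c + 1) * (m * m) ^ c) * (m + 1) ^ 2) + ((c + 3) * m ^ (c + 2)) * ((c + 3) * m ^ (c + 2)) + 1

/-- the cost to a representative. -/
def PR (P : ℕ → ℕ) (m : ℕ) : ℕ := (15 * m + 20) * m + P m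

/-- the bound for irreducible two sided states. -/
def FB (c : ℕ) (P : ℕ → ℕ) (m : ℕ) : ℕ := BR (NRc c m) (PR P m) m

theorem BR_mono {N0 N0' P P' m : ℕ} (h : N0 ≤ N0') (h' : P ≤ P') : BR N0 P m ≤ BR N0' P' m := by
  unfold BR
  gcongr

section
variable {Ω : Type} [DecidableEq Ω] {p : Ω → Ω}

/-- REPS with a finite type of labels. -/
theorem REPS' [Fintype Ω] {h : ∀ t, p (p t) = t} {s₀ : St Ω} (hx₀ : XS p h s₀ s₀) (hall : ∀ t, t ∈ s₀.1 ++ s₀.2) {N0 P : ℕ}
    {ι : Type} [Fintype ι] (hN0 : 0 < N0) (hι : Fintype.card ι ≤ N0) (rep : ι → St Ω)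
    (hrep : ∀ x, XS p h s₀ x → ¬ PFs p x → ∃ (k : ι) (φ : Ω → ZMod 2), φ ∈ VS p h s₀ ∧ XS p h s₀ (rep k) ∧
      RT p P x (rel (act (h := h) hx₀.wf φ) (rep k))) {a : ℕ} {t : St Ω} (hr : Reach p a s₀ t) :
    Reach p (BR N0 P (s₀.1 ++ s₀.2).length) s₀ t := by
  classical
  let rep' : Fin N0 → St Ω := fun k => if hk : (k : ℕ) < Fintype.card ι then rep ((Fintype.equivFin ι).symm ⟨k, hk⟩) else s₀
  refine REPS hx₀ hall hN0 rep' ?_ hr
  intro x hx hpf
  obtain ⟨k, φ, h1, h2, h3⟩ := hrep x hx hpf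
  have hk := (Fintype.equivFin ι k).2
  have e : rep' ⟨(Fintype.equivFin ι k).1, hk.trans_le hι⟩ = rep k := by
    simp [rep']
  exact ⟨⟨(Fintype.equivFin ι k).1, hk.trans_le hι⟩, φ, h1, by rw [e]; exact h2, by rw [e]; exact h3⟩

theorem bound_full [Fintype Ω] {c : ℕ} {P : ℕ → ℕ} (hA : HA c P) (h : ∀ t, p (p t) = t) {s₀ : St Ω} (hx₀ : XS p h s₀ s₀)
    (hall : ∀ t, t ∈ s₀.1 ++ s₀.2) {a : ℕ} {t : St Ω} (hr : Reach p a s₀ t) :
    Reach p (FB c P (s₀.1 ++ s₀.2).length) s₀ t := by
  set m := (s₀.1 ++ s₀.2).length with hm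
  have hcard : Fintype.card Ω = m := by
    rw [hm, ← List.toFinset_card_of_nodup hx₀.wf.nd, ← Finset.card_univ]
    congr 1
    ext t
    simpa using hall t
  have hm1 : 1 ≤ m := by
    rcases List.exists_cons_of_ne_nil hx₀.n.ne1 with ⟨x, l, hxl⟩
    rw [hm, hxl]
    simp
  have hNR : 0 < NRc c m := Nat.succ_pos _
  by_cases hsmall : m ≤ c + 2
  · -- few tokens: all states are representatives
    let ι : Type := Lb Ω (c + 2) × Lb Ω (c + 2)
    have hι : Fintype.card ι ≤ NRc c m := by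
      have h1 : Fintype.card (Lb Ω (c + 2)) ≤ (c + 3) * m ^ (c + 2) := by
        have := lbl_card (α := Ω) (by rw [hcard]; exact hm1) (c + 2)
        rwa [hcard] at this
      have h2 : Fintype.card ι = Fintype.card (Lb Ω (c + 2)) * Fintype.card (Lb Ω (c + 2)) := Fintype.card_prod _ _
      rw [h2]
      unfold NRc
      have h3 := Nat.mul_le_mul h1 h1
      omega
    have h1 := REPS' (P := 0) hx₀ hall hNR hι (fun k : ι => (lbl k.1, lbl k.2)) (by
      intro x hx _
      have hlen : x.1.length + x.2.length = m := by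
        rw [← List.length_append]
        exact hx.perm.length_eq
      obtain ⟨l1, hl1⟩ := lbl_surj (K := c + 2) x.1 (by omega)
      obtain ⟨l2, hl2⟩ := lbl_surj (K := c + 2) x.2 (by omega)
      refine ⟨(l1, l2), 0, (VS p h s₀).zero_mem, ?_, ?_⟩
      · simp only [hl1, hl2]
        exact hx
      · simp only [hl1, hl2]
        rw [rel_id _ (fun t => act_zero hx₀.wf t)]
        exact ⟨.refl _ _ hx.n, .refl _ _ hx.n⟩) hr
    exact h1.mono (BR_mono le_rfl (Nat.zero_le _))
  · push Not at hsmall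
    obtain ⟨rep, hrep⟩ := reps_all hx₀ hall c
    have hι : Fintype.card (LbT Ω c) ≤ NRc c m := by
      have h1 : Fintype.card (Lb (Ω × Ω) c) ≤ (c + 1) * (m * m) ^ c := by
        have := lbl_card (α := Ω × Ω) (by rw [Fintype.card_prod, hcard]; nlinarith) c
        rwa [Fintype.card_prod, hcard] at this
      have h2 : Fintype.card (LbT Ω c) = Fintype.card (Lb (Ω × Ω) c) * (Fintype.card (Lb (Ω × Ω) c) * (m + 1) ^ 2) := by
        show Fintype.card (Lb (Ω × Ω) c × Lb (Ω × Ω) c × Fin ((Fintype.card Ω + 1) ^ 2)) = _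
        rw [Fintype.card_prod, Fintype.card_prod, Fintype.card_fin, hcard]
      rw [h2]
      unfold NRc
      have h3 := Nat.mul_le_mul h1 (Nat.mul_le_mul_right ((m + 1) ^ 2) h1)
      omega
    refine REPS' (P := PR P m) hx₀ hall hNR hι rep ?_ hr
    intro x hx hpf
    have hlen : (x.1 ++ x.2).length = m := hx.perm.length_eq
    obtain ⟨t1, hds, hrt1⟩ := AHP_DS x hx.wf hx.irr hx.n hpf
    rw [hlen] at hrt1
    have hx1 : XS p h s₀ t1 := hx.reach hrt1.1
    obtain ⟨e, A, B, hrt2, hnc⟩ := hA Ω p t1 hx1.wf hx1.irr hds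
    rw [hx1.perm.length_eq] at hrt2
    have hx2 : XS p h s₀ (A ++ [p e], e :: B) := hx1.reach hrt2.1
    obtain ⟨f, hfA, hfB⟩ := exists_mixed (h := h) hx2.wf hnc (by
      have := hx2.perm.length_eq
      simp only at this
      rw [this]
      exact hsmall)
    obtain ⟨A', hperm, hrt3⟩ := rot_mixed hx2.n hfA
    have hx3 : XS p h s₀ (f :: A' ++ [p e], e :: B) := hx2.reach hrt3.1
    have hnc3 : nc p (f :: A' ++ [p e], e :: B) ≤ c := by
      refine le_trans (le_of_eq ?_) hnc
      rw [nc_eq, nc_eq]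
      have hp2 : (f :: A' ++ [p e]).Perm (A ++ [p e]) := hperm.append_right [p e]
      congr 1
      have h1 : (fun t => decide (p t ∈ f :: A' ++ [p e])) = (fun t => decide (p t ∈ A ++ [p e])) := by
        funext t
        simp only [hp2.mem_iff]
      rw [h1]
      exact (hp2.filter _).length_eq
    obtain ⟨L₁, L₂, aa, bb, hdec, hsd, hl1, hl2⟩ := decode_S (h := h) hx3.wf hfB hnc3
    rw [hdec] at hx3 hrt3
    obtain ⟨k, φ, h4, h5, h6⟩ := hrep e L₁ L₂ aa bb hsd hl1 hl2 hx3
    refine ⟨k, φ, h4, h5, ?_⟩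
    have h7 := ((hrt1.trans hrt2).trans hrt3).trans h6
    exact h7

end

/-! ## Restriction to the tokens -/

section
variable {Ω : Type} {p : Ω → Ω}

/-- the state of the values. -/
def vl {S : Set Ω} (s : St S) : St Ω := (s.1.map Subtype.val, s.2.map Subtype.val)

theorem SL.lift {S : Set Ω} {p' : S → S} (hp' : ∀ t : S, (p' t : Ω) = p t) {c : ℕ} {s' : St S} {t : St Ω}
    (h : SL p c (vl s') t) : ∃ t' : St S, t = vl t' ∧ SL p' c s' t' := by
  obtain ⟨U', V'⟩ := s'
  generalize hs : vl (U', V') = s at h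
  cases h with
  | reg x y U A B =>
    rw [vl, Prod.mk.injEq] at hs
    obtain ⟨h1, h2⟩ := hs
    simp only at h1 h2
    rw [List.map_eq_cons_iff] at h1 h2
    obtain ⟨x', U'', rfl, rfl, rfl⟩ := h1
    obtain ⟨y', V'', rfl, rfl, h3⟩ := h2
    rw [List.map_eq_append_iff] at h3
    obtain ⟨A', B'', rfl, rfl, h4⟩ := h3
    rw [List.map_eq_cons_iff] at h4
    obtain ⟨q, B', rfl, h5, rfl⟩ := h4
    have h6 : q = p' x' := Subtype.ext (by rw [h5, hp'])
    subst h6
    refine ⟨(x' :: U'', A' ++ y' :: p' x' :: B'), ?_, SL.reg _ _ _ _ _⟩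
    simp [vl, hp']
  | tr x y A B V =>
    rw [vl, Prod.mk.injEq] at hs
    obtain ⟨h1, h2⟩ := hs
    simp only at h1 h2
    rw [List.map_eq_cons_iff] at h1 h2
    obtain ⟨x', U'', rfl, rfl, h3⟩ := h1
    obtain ⟨y', V'', rfl, rfl, rfl⟩ := h2
    rw [List.map_eq_append_iff] at h3
    obtain ⟨A', B'', rfl, rfl, h4⟩ := h3
    rw [List.map_eq_cons_iff] at h4
    obtain ⟨q, B', rfl, h5, rfl⟩ := h4
    have h6 : q = p' x' := Subtype.ext (by rw [h5, hp'])
    subst h6
    refine ⟨(x' :: (A' ++ y' :: p' x' :: B'), V''), ?_, SL.tr _ _ _ _ _⟩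
    simp [vl, hp']

theorem Sp.lift {S : Set Ω} {p' : S → S} (hp' : ∀ t : S, (p' t : Ω) = p t) {c : ℕ} {s' : St S} {t : St Ω}
    (h : Sp p c (vl s') t) : ∃ t' : St S, t = vl t' ∧ Sp p' c s' t' := by
  rcases h with h | h
  · obtain ⟨t', h1, h2⟩ := SL.lift hp' h
    exact ⟨t', h1, Or.inl h2⟩
  · have h0 : NTH.mir (vl s') = vl (NTH.mir s') := rfl
    rw [h0] at h
    obtain ⟨t', h1, h2⟩ := SL.lift hp' h
    refine ⟨NTH.mir t', ?_, Or.inr (by simpa using h2)⟩
    have h3 : vl (NTH.mir t') = NTH.mir (vl t') := rfl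
    rw [h3, ← h1, mir_mir]

theorem N.lift {S : Set Ω} {p' : S → S} (hp' : ∀ t : S, (p' t : Ω) = p t) {s' : St S} (h : N p (vl s')) : N p' s' := by
  obtain ⟨⟨r, h1, h2⟩, ⟨b, h3, h4⟩⟩ := h
  simp only [vl, List.mem_map] at h1 h2 h3 h4
  obtain ⟨r', h5, rfl⟩ := h1
  obtain ⟨r'', h6, h7⟩ := h2
  obtain ⟨b', h8, rfl⟩ := h3
  obtain ⟨b'', h9, h10⟩ := h4
  have e1 : r'' = p' r' := Subtype.ext (by rw [h7, hp'])
  have e2 : b'' = p' b' := Subtype.ext (by rw [h10, hp'])
  exact ⟨⟨r', h5, e1 ▸ h6⟩, ⟨b', h8, e2 ▸ h9⟩⟩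

theorem Reach.lift {S : Set Ω} {p' : S → S} (hp' : ∀ t : S, (p' t : Ω) = p t) {a : ℕ} {s t : St Ω} (h : Reach p a s t) :
    ∀ s' : St S, s = vl s' → ∃ t' : St S, t = vl t' ∧ Reach p' a s' t' := by
  induction h with
  | refl a s hN =>
    rintro s' rfl
    exact ⟨s', rfl, .refl _ _ (hN.lift hp')⟩
  | head hN hs _ ih =>
    rintro s' rfl
    obtain ⟨t', rfl, h2⟩ := Sp.lift hp' hs
    obtain ⟨v', h3, h4⟩ := ih t' rfl
    exact ⟨v', h3, .head (hN.lift hp') h2 h4⟩

theorem SL.val {S : Set Ω} {p' : S → S} (hp' : ∀ t : S, (p' t : Ω) = p t) {c : ℕ} {s' t' : St S} (h : SL p' c s' t') :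
    SL p c (vl s') (vl t') := by
  cases h with
  | reg x y U A B =>
    simp only [vl, List.map_cons, List.map_append, hp']
    exact SL.reg _ _ _ _ _
  | tr x y A B V =>
    simp only [vl, List.map_cons, List.map_append, hp']
    exact SL.tr _ _ _ _ _

theorem N.val {S : Set Ω} {p' : S → S} (hp' : ∀ t : S, (p' t : Ω) = p t) {s' : St S} (h : N p' s') : N p (vl s') := by
  obtain ⟨⟨r, h1, h2⟩, ⟨b, h3, h4⟩⟩ := h
  refine ⟨⟨r, List.mem_map_of_mem h1, ?_⟩, ⟨b, List.mem_map_of_mem h3, ?_⟩⟩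
  · rw [← hp']; exact List.mem_map_of_mem h2
  · rw [← hp']; exact List.mem_map_of_mem h4

theorem Reach.val {S : Set Ω} {p' : S → S} (hp' : ∀ t : S, (p' t : Ω) = p t) {a : ℕ} {s' t' : St S} (h : Reach p' a s' t') :
    Reach p a (vl s') (vl t') := by
  induction h with
  | refl a s hN => exact .refl _ _ (hN.val hp')
  | head hN hs _ ih =>
    refine .head (hN.val hp') ?_ ih
    rcases hs with hs | hs
    · exact Or.inl (hs.val hp')
    · exact Or.inr (hs.val hp')

end

/-- THE BOUND FOR IRREDUCIBLE TWO SIDED STATES. -/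
theorem TBF {c : ℕ} {P : ℕ → ℕ} (hA : HA c P) : TB (FB c P) := by
  classical
  intro Ω p s t a hw hi hr
  let S : Set Ω := {x | x ∈ s.1 ++ s.2}
  have hS : S.Finite := List.finite_toSet _
  haveI : Fintype S := hS.fintype
  let p' : S → S := fun x => ⟨p x.1, hw.cl x.1 x.2⟩
  have hp' : ∀ x : S, (p' x : Ω) = p x := fun _ => rfl
  have h' : ∀ x : S, p' (p' x) = x := fun x => Subtype.ext (hw.inv x.1)
  let s' : St S := (s.1.attachWith (fun x => x ∈ S) (fun x hx => List.mem_append_left _ hx), s.2.attachWith (fun x => x ∈ S) (fun x hx => List.mem_append_right _ hx))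
  have hs' : s = vl s' := by
    simp only [s', vl]
    rw [List.attachWith_map_subtype_val, List.attachWith_map_subtype_val]
  have hmem : ∀ x : S, x ∈ s'.1 ++ s'.2 := by
    intro x
    rcases List.mem_append.1 x.2 with h1 | h1
    · apply List.mem_append_left
      simp only [s', List.mem_attachWith]
      exact h1
    · apply List.mem_append_right
      simp only [s', List.mem_attachWith]
      exact h1
  have happ : (s'.1 ++ s'.2).map Subtype.val = s.1 ++ s.2 := by
    rw [List.map_append]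
    conv_rhs => rw [hs']
    rfl
  have hw' : WF p' s' := by
    refine ⟨?_, fun x _ => hmem _, h', ?_⟩
    · have h1 := hw.nd
      rw [← happ] at h1
      exact h1.of_map
    · intro x hx
      exact hw.ne x.1 (congrArg Subtype.val hx)
  have hi' : Irr p' s' := by
    intro U1 U2 V1 V2 he h1 h2 h3
    have h4 := hi (U1.map Subtype.val) (U2.map Subtype.val) (V1.map Subtype.val) (V2.map Subtype.val) (by
      rw [← List.map_append, ← List.map_append]
      conv_lhs => rw [hs', he]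
      rfl) (fun h5 => h1 (List.map_eq_nil_iff.1 h5)) (fun h5 => h2 (List.map_eq_nil_iff.1 h5)) (by
      intro x hx
      rw [← List.map_append] at hx ⊢
      obtain ⟨y, hy, rfl⟩ := List.mem_map.1 hx
      rw [← hp']
      exact List.mem_map_of_mem (h3 y hy))
    exact ⟨List.map_eq_nil_iff.1 h4.1, List.map_eq_nil_iff.1 h4.2⟩
  obtain ⟨t', ht', hr'⟩ := Reach.lift hp' hr s' hs'
  have hx₀ : XS p' h' s' s' := XS.refl hw' hi' hr'.left
  have h1 := bound_full hA h' hx₀ hmem hr'
  have h2 := Reach.val hp' h1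
  rw [← hs', ← ht'] at h2
  have hlen : (s'.1 ++ s'.2).length = (s.1 ++ s.2).length := by
    rw [← happ, List.length_map]
  rwa [hlen] at h2

end NTH
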